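import Pool.Agent.T2h84.GS.Fin

set_option autoImplicit false

open Finset Filter Topology

namespace Pool.T2h84GS

theorem finite_bound (n : ℕ) (hn : 0 < n) (δ : ℝ) (h0 : 0 ≤ δ) (h1 : δ ≤ 1/2) (γ : ℝ)
    (hγ0 : 0 < γ) (hγ1 : γ ≤ 1) (hlg : 80 * Real.sqrt n < γ * (2 * δ * n))
    (hτ : 0 < 2 * δ * (n - 1) - 2 * γ * δ * n)
    (P : (Fin n → Fin n → Bool) → Prop) [DecidablePred P]
    (hP : ∀ s, (∀ θ : Fin n → ℝ, IsLocalMin (fun φ : Fin n → ℝ => (1/2 : ℝ) * ∑ i : Fin n,
      ∑ j : Fin n, mat s i j * (1 - Real.cos (φ i - φ j))) θ →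
      ∀ i j : Fin n, ∃ k : ℤ, θ i - θ j = 2 * Real.pi * (k : ℝ)) → P s) :
    1 - (2 * (9 : ℝ) ^ n * Real.exp (-(4 * n))
      + n * Real.exp (-((2 * δ * (n - 1) - 2 * γ * δ * n) ^ 2 / (2 * n))))
      ≤ ∑ s : Fin n → Fin n → Bool, (if P s then wt n δ s else 0) := by
  classical
  have hnR : (0 : ℝ) < n := by exact_mod_cast hn
  have hn1 : (1 : ℝ) ≤ n := by exact_mod_cast hn
  set τ : ℝ := 2 * δ * (n - 1) - 2 * γ * δ * n with hτdef
  set q : ℝ := Real.sqrt n with hq
  have hq0 : 0 < q := Real.sqrt_pos.mpr hnR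
  have hq2 : q ^ 2 = n := Real.sq_sqrt hnR.le
  have hq1 : 1 ≤ q := by rw [hq]; exact Real.one_le_sqrt.mpr hn1
  obtain ⟨T, hT1, hTc, hT⟩ := exists_net (W := EuclideanSpace ℝ (Fin n))
    {x | ‖x‖ = 1} (fun x hx => le_of_eq hx) (δ := 1/4) (by norm_num)
  have hTc' : (T.card : ℝ) ≤ 9 ^ n := by
    refine hTc.trans (le_of_eq ?_)
    rw [finrank_euclideanSpace, Fintype.card_fin]
    norm_num
  have hTsq : ∀ t ∈ T, ∑ i, t i ^ 2 = 1 := by
    intro t ht
    have h2 : ‖t‖ = 1 := hT1 t ht
    have h3 : ‖t‖ ^ 2 = ∑ i, t i ^ 2 := by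
      rw [EuclideanSpace.norm_sq_eq]
      refine Finset.sum_congr rfl (fun i _ => by rw [Real.norm_eq_abs, sq_abs])
    rw [← h3, h2]; norm_num
  -- the good event
  have good : ∀ s : Fin n → Fin n → Bool,
      (∀ t ∈ T, ¬ (4 * q ≤ 1 * lin δ (fun i j => 2 * (t i * t j)) s)) →
      (∀ t ∈ T, ¬ (4 * q ≤ (-1) * lin δ (fun i j => 2 * (t i * t j)) s)) →
      (∀ k, ¬ (∑ j, mat s k j < 2 * δ * (n - 1) - τ)) → P s := by
    intro s g1 g2 g3
    refine hP s (fun θ hθ => ?_)
    have hdn : 2 * δ * n / n = 2 * δ := by field_simp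
    refine det (mat s) (mat_symm s) (mat_diag s) (2 * δ * n) (10 * q) γ (by positivity) hγ0 hγ1
      (by linarith) ?_ ?_ θ hθ
    · intro x
      rw [hdn]
      have h5 := form_le_of_net (fun i j => mat s i j - 2 * δ)
        (fun i j => by rw [mat_symm s i j]) T hT1 hT (5 * q) (by positivity)
        (fun t ht => by
          have e := form_eq_lin δ s (fun i => t i)
          simp only at e
          rw [e, hTsq t ht, mul_one]
          have a1 := g1 t ht
          have a2 := g2 t ht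
          push Not at a1 a2
          rw [abs_le]
          constructor <;> linarith) x
      refine h5.trans (le_of_eq ?_)
      ring
    · intro k
      have := g3 k
      push Not at this
      rw [hτdef] at this
      linarith
  -- union bound
  have key : ∀ s : Fin n → Fin n → Bool, wt n δ s ≤ (if P s then wt n δ s else 0)
      + ((∑ t ∈ T, (if 4 * q ≤ 1 * lin δ (fun i j => 2 * (t i * t j)) s then wt n δ s else 0))
      + (∑ t ∈ T, (if 4 * q ≤ (-1) * lin δ (fun i j => 2 * (t i * t j)) s then wt n δ s else 0))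
      + ∑ k, (if ∑ j, mat s k j < 2 * δ * (n - 1) - τ then wt n δ s else 0)) := by
    intro s
    have hw := wt_nonneg δ h0 h1 s
    have p1 : ∀ t ∈ T, 0 ≤ (if 4 * q ≤ 1 * lin δ (fun i j => 2 * (t i * t j)) s
        then wt n δ s else 0) := fun t _ => by split_ifs <;> first | exact hw | exact le_refl _
    have p2 : ∀ t ∈ T, 0 ≤ (if 4 * q ≤ (-1) * lin δ (fun i j => 2 * (t i * t j)) s
        then wt n δ s else 0) := fun t _ => by split_ifs <;> first | exact hw | exact le_refl _
    have p3 : ∀ k ∈ (Finset.univ : Finset (Fin n)),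
        0 ≤ (if ∑ j, mat s k j < 2 * δ * (n - 1) - τ then wt n δ s else 0) :=
      fun k _ => by split_ifs <;> first | exact hw | exact le_refl _
    have s1 := Finset.sum_nonneg p1
    have s2 := Finset.sum_nonneg p2
    have s3 := Finset.sum_nonneg p3
    by_cases hPs : P s
    · rw [if_pos hPs]; linarith
    · rw [if_neg hPs, zero_add]
      by_cases b1 : ∀ t ∈ T, ¬ (4 * q ≤ 1 * lin δ (fun i j => 2 * (t i * t j)) s)
      · by_cases b2 : ∀ t ∈ T, ¬ (4 * q ≤ (-1) * lin δ (fun i j => 2 * (t i * t j)) s)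
        · by_cases b3 : ∀ k, ¬ (∑ j, mat s k j < 2 * δ * (n - 1) - τ)
          · exact absurd (good s b1 b2 b3) hPs
          · push Not at b3
            obtain ⟨k, hk⟩ := b3
            have := Finset.single_le_sum p3 (Finset.mem_univ k)
            rw [if_pos hk] at this
            linarith
        · push Not at b2
          obtain ⟨t, ht, hk⟩ := b2
          have := Finset.single_le_sum p2 ht
          rw [if_pos hk] at this
          linarith
      · push Not at b1
        obtain ⟨t, ht, hk⟩ := b1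
        have := Finset.single_le_sum p1 ht
        rw [if_pos hk] at this
        linarith
  have hsum := Finset.sum_le_sum (s := (Finset.univ : Finset (Fin n → Fin n → Bool)))
    (fun s _ => key s)
  rw [sum_wt, Finset.sum_add_distrib, Finset.sum_add_distrib, Finset.sum_add_distrib] at hsum
  have hexp4 : ∀ σ : ℝ, σ ^ 2 = 1 → ∀ t ∈ T, ∑ s : Fin n → Fin n → Bool,
      (if 4 * q ≤ σ * lin δ (fun i j => 2 * (t i * t j)) s then wt n δ s else 0)
      ≤ Real.exp (-(4 * n)) := by
    intro σ hσ t ht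
    refine (tail_form δ h0 h1 (fun i => t i) (hTsq t ht) σ hσ (4 * q) (by positivity)).trans
      (le_of_eq ?_)
    congr 1
    rw [mul_pow, hq2]; ring
  have hb : ∀ σ : ℝ, σ ^ 2 = 1 → ∑ s : Fin n → Fin n → Bool, ∑ t ∈ T,
      (if 4 * q ≤ σ * lin δ (fun i j => 2 * (t i * t j)) s then wt n δ s else 0)
      ≤ 9 ^ n * Real.exp (-(4 * n)) := by
    intro σ hσ
    rw [Finset.sum_comm]
    calc _ ≤ ∑ t ∈ T, Real.exp (-(4 * (n : ℝ))) := Finset.sum_le_sum (fun t ht => hexp4 σ hσ t ht)
      _ = T.card * Real.exp (-(4 * n)) := by rw [Finset.sum_const, nsmul_eq_mul]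
      _ ≤ _ := mul_le_mul_of_nonneg_right hTc' (Real.exp_pos _).le
  have hr : ∑ s : Fin n → Fin n → Bool, ∑ k,
      (if ∑ j, mat s k j < 2 * δ * (n - 1) - τ then wt n δ s else 0)
      ≤ n * Real.exp (-(τ ^ 2 / (2 * n))) := by
    rw [Finset.sum_comm]
    calc _ ≤ ∑ _k : Fin n, Real.exp (-(τ ^ 2 / (2 * n))) :=
          Finset.sum_le_sum (fun k _ => tail_row hn δ h0 h1 k τ hτ)
      _ = n * Real.exp (-(τ ^ 2 / (2 * n))) := by
          rw [Finset.sum_const, nsmul_eq_mul]
          simp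
  have hb1 := hb 1 (by norm_num)
  have hb2 := hb (-1) (by norm_num)
  linarith

/-- The asymptotic statement. -/
theorem main (ε : ℝ) (hε : 0 < ε) (δ : ℕ → ℝ) (hδ : ∀ n : ℕ, 0 ≤ δ n ∧ δ n ≤ 1/2)
    (hev : ∀ᶠ n : ℕ in Filter.atTop,
        (1 + ε) * Real.sqrt (Real.log ((n : ℕ) : ℝ) / (2 * ((n : ℕ) : ℝ))) ≤ δ n)
    (P : ∀ n : ℕ, (Fin n → Fin n → Bool) → Prop) [∀ n, DecidablePred (P n)]
    (hP : ∀ n s, (∀ θ : Fin n → ℝ, IsLocalMin (fun φ : Fin n → ℝ => (1/2 : ℝ) * ∑ i : Fin n,
      ∑ j : Fin n, mat s i j * (1 - Real.cos (φ i - φ j))) θ →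
      ∀ i j : Fin n, ∃ k : ℤ, θ i - θ j = 2 * Real.pi * (k : ℝ)) → P n s) :
    Tendsto (fun n : ℕ => ∑ s : Fin n → Fin n → Bool, (if P n s then wt n (δ n) s else 0))
      atTop (𝓝 1) := by
  set γ : ℝ := (ε / 4) / (1 + ε) with hγ
  have hγ0 : 0 < γ := by positivity
  have hγ1 : γ ≤ 1 := by rw [hγ, div_le_one (by positivity)]; linarith
  have hγe : γ * (1 + ε) = ε / 4 := by rw [hγ]; field_simp
  -- limit of the error
  have hlim : Tendsto (fun n : ℕ => 1 - (2 * (9 : ℝ) ^ n * Real.exp (-(4 * n))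
      + (n : ℝ) ^ (-ε))) atTop (𝓝 (1 - (0 + 0))) := by
    apply Tendsto.const_sub
    apply Tendsto.add
    · have e : ∀ n : ℕ, 2 * (9 : ℝ) ^ n * Real.exp (-(4 * n)) = 2 * (9 * Real.exp (-4)) ^ n := by
        intro n
        rw [mul_pow, ← Real.exp_nat_mul, mul_assoc]
        congr 3
        ring
      simp_rw [e]
      rw [← mul_zero (2 : ℝ)]
      apply Tendsto.const_mul
      apply tendsto_pow_atTop_nhds_zero_of_lt_one (by positivity)
      have h3 : (9 : ℝ) < Real.exp 4 := by
        have h4 : Real.exp 4 = (Real.exp 1) ^ 4 := by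
          rw [← Real.exp_nat_mul]; norm_num
        have h5 : (2 : ℝ) < Real.exp 1 := by
          have := Real.exp_one_gt_d9; linarith
        have h6 : (2 : ℝ) ^ 4 ≤ (Real.exp 1) ^ 4 := pow_le_pow_left₀ (by norm_num) h5.le 4
        rw [h4]; linarith
      rw [Real.exp_neg, ← div_eq_mul_inv, div_lt_one (Real.exp_pos _)]
      exact h3
    · exact (tendsto_rpow_neg_atTop hε).comp tendsto_natCast_atTop_atTop
  rw [add_zero, sub_zero] at hlim
  refine tendsto_of_tendsto_of_tendsto_of_le_of_le' hlim tendsto_const_nhds ?_ ?_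
  · have hlog : Tendsto (fun n : ℕ => Real.log (n : ℝ)) atTop atTop :=
      Real.tendsto_log_atTop.comp tendsto_natCast_atTop_atTop
    have h2 := hlog.eventually_gt_atTop (2 * (160 / ε) ^ 2)
    have h3 : ∀ᶠ n : ℕ in atTop, 1 / (n : ℝ) < γ := by
      have : Tendsto (fun n : ℕ => 1 / (n : ℝ)) atTop (𝓝 0) := tendsto_one_div_atTop_nhds_zero_nat
      exact this.eventually (gt_mem_nhds hγ0)
    filter_upwards [hev, h2, h3, eventually_gt_atTop 0] with n h4 h5 h6 hn
    have hnR : (0 : ℝ) < n := by exact_mod_cast hn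
    set L : ℝ := Real.sqrt (Real.log (n : ℝ) / (2 * (n : ℝ))) with hL
    have hlogpos : 0 < Real.log (n : ℝ) := by
      have : 0 < 2 * (160 / ε) ^ 2 := by positivity
      linarith
    have hL2 : L ^ 2 = Real.log (n : ℝ) / (2 * (n : ℝ)) := Real.sq_sqrt (by positivity)
    have hLpos : 0 < L := Real.sqrt_pos.mpr (by positivity)
    have hδpos : 0 < δ n := lt_of_lt_of_le (by positivity) h4
    set q : ℝ := Real.sqrt n with hq
    have hq0 : 0 < q := Real.sqrt_pos.mpr hnR
    have hq2 : q ^ 2 = n := Real.sq_sqrt hnR.le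
    have hLq : 160 / ε < L * q := by
      have h7 : (L * q) ^ 2 = Real.log n / 2 := by
        rw [mul_pow, hL2, hq2]; field_simp
      have h8 : (160 / ε) ^ 2 < (L * q) ^ 2 := by rw [h7]; linarith
      exact lt_of_pow_lt_pow_left₀ 2 (by positivity) h8
    have hlg : 80 * q < γ * (2 * δ n * n) := by
      have h9 : 160 < ε * (L * q) := by
        have := (div_lt_iff₀ hε).mp hLq
        linarith
      have h10 : γ * (2 * ((1 + ε) * L) * n) ≤ γ * (2 * δ n * n) := by
        apply mul_le_mul_of_nonneg_left _ hγ0.le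
        apply mul_le_mul_of_nonneg_right _ hnR.le
        linarith
      have h11 : γ * (2 * ((1 + ε) * L) * n) = (ε * (L * q)) / 2 * q := by
        have : γ * (2 * ((1 + ε) * L) * n) = (γ * (1 + ε)) * (2 * L * n) := by ring
        rw [this, hγe, ← hq2]; ring
      have h12 : 80 * q < (ε * (L * q)) / 2 * q := by
        apply mul_lt_mul_of_pos_right _ hq0
        linarith
      linarith
    -- the row parameter
    have hfrac : (1 + ε / 2) ≤ (1 + ε) * (1 - 1 / n - γ) := by
      have h13 : (1 + ε) * (1 / n) ≤ ε / 4 := by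
        rw [← hγe, mul_comm γ]
        exact mul_le_mul_of_nonneg_left h6.le (by positivity)
      have h14 : (1 + ε) * (1 - 1 / n - γ) = (1 + ε) - (1 + ε) * (1 / n) - γ * (1 + ε) := by ring
      rw [h14, hγe]
      linarith
    have hτe : 2 * δ n * (n - 1) - 2 * γ * δ n * n = 2 * δ n * n * (1 - 1 / n - γ) := by
      field_simp
    have hpos : 0 < 1 - 1 / (n : ℝ) - γ := by
      by_contra hneg
      push Not at hneg
      nlinarith
    have hτlow : 2 * n * L * (1 + ε / 2) ≤ 2 * δ n * (n - 1) - 2 * γ * δ n * n := by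
      rw [hτe]
      calc 2 * n * L * (1 + ε / 2) ≤ 2 * n * L * ((1 + ε) * (1 - 1 / n - γ)) :=
            mul_le_mul_of_nonneg_left hfrac (by positivity)
        _ = 2 * n * (1 - 1 / n - γ) * ((1 + ε) * L) := by ring
        _ ≤ 2 * n * (1 - 1 / n - γ) * δ n :=
            mul_le_mul_of_nonneg_left h4 (by positivity)
        _ = _ := by ring
    have hτpos : 0 < 2 * δ n * (n - 1) - 2 * γ * δ n * n :=
      lt_of_lt_of_le (by positivity) hτlow
    have hfb := finite_bound n hn (δ n) (hδ n).1 (hδ n).2 γ hγ0 hγ1 hlg hτpos (P n) (hP n)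
    refine le_trans ?_ hfb
    have hexp : (n : ℝ) * Real.exp (-((2 * δ n * (n - 1) - 2 * γ * δ n * n) ^ 2 / (2 * n)))
        ≤ (n : ℝ) ^ (-ε) := by
      have h15 : (1 + ε) * Real.log n
          ≤ (2 * δ n * (n - 1) - 2 * γ * δ n * n) ^ 2 / (2 * n) := by
        rw [le_div_iff₀ (by positivity)]
        have h16 := pow_le_pow_left₀ (by positivity) hτlow 2
        refine le_trans ?_ h16
        have h17 : (2 * n * L * (1 + ε / 2)) ^ 2 = (1 + ε / 2) ^ 2 * Real.log n * (2 * n) := by
          rw [mul_pow, mul_pow, hL2]; field_simp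
        rw [h17]
        apply mul_le_mul_of_nonneg_right _ (by positivity)
        apply mul_le_mul_of_nonneg_right _ hlogpos.le
        nlinarith
      calc (n : ℝ) * Real.exp (-((2 * δ n * (n - 1) - 2 * γ * δ n * n) ^ 2 / (2 * n)))
          ≤ (n : ℝ) * Real.exp (-((1 + ε) * Real.log n)) := by
            apply mul_le_mul_of_nonneg_left _ hnR.le
            apply Real.exp_le_exp.mpr
            linarith
        _ = Real.exp (Real.log n) * Real.exp (-((1 + ε) * Real.log n)) := by
            rw [Real.exp_log hnR]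
        _ = Real.exp (Real.log n * (-ε)) := by rw [← Real.exp_add]; congr 1; ring
        _ = (n : ℝ) ^ (-ε) := by rw [Real.rpow_def_of_pos hnR]
    linarith
  · refine Eventually.of_forall (fun n => ?_)
    calc ∑ s : Fin n → Fin n → Bool, (if P n s then wt n (δ n) s else 0)
        ≤ ∑ s : Fin n → Fin n → Bool, wt n (δ n) s := by
          refine Finset.sum_le_sum (fun s _ => ?_)
          have hw := wt_nonneg (n := n) (δ n) (hδ n).1 (hδ n).2 s
          split_ifs
          · exact le_refl _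
          · exact hw
      _ = 1 := sum_wt (δ n)

end Pool.T2h84GS
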