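import Mathlib

set_option autoImplicit false
open Finset

namespace Pool.T2h84GS

variable {n : ℕ}

/-- A symmetric form bounded by `lam` on the diagonal gives the operator bound. -/
theorem opnorm_of_form (M : Fin n → Fin n → ℝ) (hM : ∀ i j, M i j = M j i) (lam : ℝ)
    (hlam : 0 < lam)
    (h : ∀ x : Fin n → ℝ, |∑ i, ∑ j, M i j * (x i * x j)| ≤ lam * ∑ i, x i ^ 2)
    (x : Fin n → ℝ) :
    ∑ i, (∑ j, M i j * x j) ^ 2 ≤ lam ^ 2 * ∑ i, x i ^ 2 := by
  set T : ℝ := ∑ i, (∑ j, M i j * x j) ^ 2 with hT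
  set y : Fin n → ℝ := fun i => (∑ j, M i j * x j) / lam with hy
  have h1 := h (fun i => x i + y i)
  have h2 := h (fun i => x i - y i)
  have e1 : (∑ i, ∑ j, M i j * ((x i + y i) * (x j + y j)))
      - (∑ i, ∑ j, M i j * ((x i - y i) * (x j - y j))) = 4 / lam * T := by
    have s1 : ∑ i, ∑ j, M i j * (x i * y j) = ∑ i, ∑ j, M i j * (y i * x j) := by
      rw [Finset.sum_comm]
      refine Finset.sum_congr rfl (fun i _ => Finset.sum_congr rfl (fun j _ => ?_))
      rw [hM j i]; ring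
    have s2 : ∑ i, ∑ j, M i j * (y i * x j) = 1 / lam * T := by
      rw [hT, Finset.mul_sum]
      refine Finset.sum_congr rfl (fun i _ => ?_)
      have : ∑ j, M i j * (y i * x j) = y i * ∑ j, M i j * x j := by
        rw [Finset.mul_sum]
        refine Finset.sum_congr rfl (fun j _ => by ring)
      rw [this, hy]
      ring
    have s3 : (∑ i, ∑ j, M i j * ((x i + y i) * (x j + y j)))
      - (∑ i, ∑ j, M i j * ((x i - y i) * (x j - y j)))
      = 2 * (∑ i, ∑ j, M i j * (x i * y j)) + 2 * (∑ i, ∑ j, M i j * (y i * x j)) := by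
      rw [← Finset.sum_sub_distrib, Finset.mul_sum, Finset.mul_sum, ← Finset.sum_add_distrib]
      refine Finset.sum_congr rfl (fun i _ => ?_)
      rw [← Finset.sum_sub_distrib, Finset.mul_sum, Finset.mul_sum, ← Finset.sum_add_distrib]
      refine Finset.sum_congr rfl (fun j _ => by ring)
    rw [s3, s1, s2]
    ring
  have e2 : (∑ i, (x i + y i) ^ 2) + (∑ i, (x i - y i) ^ 2)
      = 2 * (∑ i, x i ^ 2) + 2 / lam ^ 2 * T := by
    rw [← Finset.sum_add_distrib, hT, Finset.mul_sum, Finset.mul_sum, ← Finset.sum_add_distrib]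
    refine Finset.sum_congr rfl (fun i _ => ?_)
    have : y i = (∑ j, M i j * x j) / lam := rfl
    rw [this]
    field_simp
    ring
  have h3 := (abs_le.mp h1).2
  have h4 := (abs_le.mp h2).1
  have h5 : 4 / lam * T ≤ lam * (2 * (∑ i, x i ^ 2) + 2 / lam ^ 2 * T) := by
    rw [← e1, ← e2]
    nlinarith
  have h6 : lam * (2 * (∑ i, x i ^ 2) + 2 / lam ^ 2 * T)
      = 2 * lam * (∑ i, x i ^ 2) + 2 / lam * T := by
    field_simp
  rw [h6] at h5
  have h7 : 2 / lam * T ≤ 2 * lam * (∑ i, x i ^ 2) := by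
    have : 4 / lam * T = 2 / lam * T + 2 / lam * T := by ring
    linarith
  have h8 : 2 / lam * T * lam = 2 * T := by field_simp
  nlinarith

/-- One-site estimate: if `c u = a + p`, `c v = q`, `u ^ 2 + v ^ 2 = 1`, `c ≥ 0`,
`a ≥ α > 0`, then `2 (1 - u) ≤ 16 (p ^ 2 + q ^ 2) / α ^ 2`. -/
theorem site (c u v a p q α : ℝ) (hc : 0 ≤ c) (huv : u ^ 2 + v ^ 2 = 1) (h1 : c * u = a + p)
    (h2 : c * v = q) (hα : 0 < α) (ha : α ≤ a) :
    (u - 1) ^ 2 + v ^ 2 ≤ 16 / α ^ 2 * (p ^ 2 + q ^ 2) := by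
  have hu1 : u ≤ 1 := by nlinarith [sq_nonneg v]
  have hu2 : -1 ≤ u := by nlinarith [sq_nonneg v]
  have e : (u - 1) ^ 2 + v ^ 2 = 2 * (1 - u) := by nlinarith
  rw [e, div_mul_eq_mul_div, le_div_iff₀ (by positivity)]
  by_cases hp : |p| ≤ α / 2
  · have hp1 := (abs_le.mp hp).1
    have h3 : α / 2 ≤ c * u := by rw [h1]; linarith
    have hu0 : 0 < u := by
      by_contra hneg
      push Not at hneg
      nlinarith
    have h4 : α / 2 ≤ c := by nlinarith
    have h5 : 2 * (1 - u) ≤ 2 * v ^ 2 := by nlinarith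
    have h6 : (α / 2) ^ 2 ≤ c ^ 2 := by
      apply pow_le_pow_left₀ (by linarith) h4
    have h7 : q ^ 2 = c ^ 2 * v ^ 2 := by rw [← h2]; ring
    calc 2 * (1 - u) * α ^ 2 ≤ 2 * v ^ 2 * α ^ 2 := by
          apply mul_le_mul_of_nonneg_right h5 (by positivity)
      _ = 8 * (v ^ 2 * (α / 2) ^ 2) := by ring
      _ ≤ 8 * (v ^ 2 * c ^ 2) := by
          apply mul_le_mul_of_nonneg_left _ (by norm_num)
          exact mul_le_mul_of_nonneg_left h6 (sq_nonneg v)
      _ = 8 * q ^ 2 := by rw [h7]; ring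
      _ ≤ 16 * (p ^ 2 + q ^ 2) := by nlinarith [sq_nonneg p, sq_nonneg q]
  · push Not at hp
    have h3 : (α / 2) ^ 2 ≤ p ^ 2 := by
      rw [← sq_abs p]
      exact pow_le_pow_left₀ (by linarith) hp.le 2
    nlinarith [sq_nonneg q, sq_nonneg α]

/-- The core of the deterministic part: centred angles. -/
theorem core (A : Fin n → Fin n → ℝ) (hA : ∀ i j, A i j = A j i) (hA0 : ∀ i, A i i = 0)
    (hn : 0 < n) (d lam gam : ℝ) (hlam : 0 < lam) (hgam : 0 < gam) (hgam1 : gam ≤ 1)
    (hlg : 8 * lam < gam * d)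
    (hnorm : ∀ x : Fin n → ℝ,
      |∑ i, ∑ j, (A i j - d / n) * (x i * x j)| ≤ lam * ∑ i, x i ^ 2)
    (hrow : ∀ i, gam * d ≤ ∑ j, A i j)
    (θ : Fin n → ℝ)
    (hF : ∀ i, ∑ j, A i j * Real.sin (θ i - θ j) = 0)
    (hS : ∀ x : Fin n → ℝ, 0 ≤ ∑ i, ∑ j, A i j * Real.cos (θ i - θ j) * (x i - x j) ^ 2)
    (hs : ∑ i, Real.sin (θ i) = 0) (hc : 0 ≤ ∑ i, Real.cos (θ i)) :
    ∀ i, Real.cos (θ i) = 1 := by
  have hnR : (0 : ℝ) < n := by exact_mod_cast hn
  have hd : 0 < d := by nlinarith
  set u : Fin n → ℝ := fun i => Real.cos (θ i) with hu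
  set v : Fin n → ℝ := fun i => Real.sin (θ i) with hv
  set c : Fin n → ℝ := fun i => ∑ j, A i j * Real.cos (θ i - θ j) with hcdef
  set R : ℝ := ∑ i, u i with hR
  have huv : ∀ i, u i ^ 2 + v i ^ 2 = 1 := fun i => by
    simp only [hu, hv]; rw [add_comm]; exact Real.sin_sq_add_cos_sq (θ i)
  have hcosd : ∀ i j, Real.cos (θ i - θ j) = u i * u j + v i * v j := fun i j => Real.cos_sub _ _
  have hsind : ∀ i j, Real.sin (θ i - θ j) = v i * u j - u i * v j := fun i j => Real.sin_sub _ _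
  -- eigen relations
  have hc1 : ∀ i, c i = u i * (∑ j, A i j * u j) + v i * (∑ j, A i j * v j) := by
    intro i
    simp only [hcdef]
    rw [Finset.mul_sum, Finset.mul_sum, ← Finset.sum_add_distrib]
    refine Finset.sum_congr rfl (fun j _ => ?_)
    rw [hcosd]; ring
  have hF1 : ∀ i, v i * (∑ j, A i j * u j) - u i * (∑ j, A i j * v j) = 0 := by
    intro i
    rw [← hF i, Finset.mul_sum, Finset.mul_sum, ← Finset.sum_sub_distrib]
    refine Finset.sum_congr rfl (fun j _ => ?_)
    rw [hsind]; ring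
  have hcu : ∀ i, c i * u i = ∑ j, A i j * u j := by
    intro i
    have h1 := hc1 i; have h2 := hF1 i; have h3 := huv i
    rw [h1]
    linear_combination (∑ j, A i j * u j) * h3 - v i * h2
  have hcv : ∀ i, c i * v i = ∑ j, A i j * v j := by
    intro i
    have h1 := hc1 i; have h2 := hF1 i; have h3 := huv i
    rw [h1]
    linear_combination (∑ j, A i j * v j) * h3 + u i * h2
  -- general expansion of the second order form
  have hexp : ∀ x : Fin n → ℝ, ∑ i, ∑ j, A i j * Real.cos (θ i - θ j) * (x i - x j) ^ 2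
      = 2 * (∑ i, x i ^ 2 * c i) - 2 * ∑ i, ∑ j, A i j * Real.cos (θ i - θ j) * (x i * x j) := by
    intro x
    have s1 : ∑ i, ∑ j, A i j * Real.cos (θ i - θ j) * (x j) ^ 2
        = ∑ i, ∑ j, A i j * Real.cos (θ i - θ j) * (x i) ^ 2 := by
      rw [Finset.sum_comm]
      refine Finset.sum_congr rfl (fun i _ => Finset.sum_congr rfl (fun j _ => ?_))
      rw [hA j i, ← Real.cos_neg (θ j - θ i)]
      ring_nf
    have s2 : ∑ i, ∑ j, A i j * Real.cos (θ i - θ j) * (x i) ^ 2 = ∑ i, x i ^ 2 * c i := by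
      refine Finset.sum_congr rfl (fun i _ => ?_)
      simp only [hcdef]
      rw [Finset.mul_sum]
      refine Finset.sum_congr rfl (fun j _ => by ring)
    have s3 : ∑ i, ∑ j, A i j * Real.cos (θ i - θ j) * (x i - x j) ^ 2
        = (∑ i, ∑ j, A i j * Real.cos (θ i - θ j) * (x i) ^ 2)
          + (∑ i, ∑ j, A i j * Real.cos (θ i - θ j) * (x j) ^ 2)
          - 2 * ∑ i, ∑ j, A i j * Real.cos (θ i - θ j) * (x i * x j) := by
      rw [Finset.mul_sum, ← Finset.sum_add_distrib, ← Finset.sum_sub_distrib]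
      refine Finset.sum_congr rfl (fun i _ => ?_)
      rw [Finset.mul_sum, ← Finset.sum_add_distrib, ← Finset.sum_sub_distrib]
      refine Finset.sum_congr rfl (fun j _ => by ring)
    rw [s3, s1, s2]
    ring
  have hcpos : ∀ i, 0 ≤ c i := by
    intro i
    have h1 := hS (fun k => if k = i then 1 else 0)
    rw [hexp] at h1
    have s1 : ∑ k, (if k = i then (1 : ℝ) else 0) ^ 2 * c k = c i := by
      rw [Finset.sum_eq_single i]
      · simp
      · intro b _ hb; simp [hb]
      · intro h; exact absurd (Finset.mem_univ i) h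
    have s2 : ∑ k, ∑ l, A k l * Real.cos (θ k - θ l)
        * ((if k = i then (1 : ℝ) else 0) * (if l = i then (1 : ℝ) else 0)) = 0 := by
      refine Finset.sum_eq_zero (fun k _ => Finset.sum_eq_zero (fun l _ => ?_))
      by_cases hk : k = i
      · by_cases hl : l = i
        · subst hk; subst hl; simp [hA0]
        · simp [hl]
      · simp [hk]
    rw [s1, s2] at h1
    linarith
  -- the operator bound
  have hop : ∀ x : Fin n → ℝ, ∑ i, (∑ j, (A i j - d / n) * x j) ^ 2 ≤ lam ^ 2 * ∑ i, x i ^ 2 :=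
    opnorm_of_form _ (fun i j => by rw [hA i j]) lam hlam hnorm
  -- form identity
  have hform : ∀ x : Fin n → ℝ, ∑ i, ∑ j, A i j * (x i * x j)
      = d / n * (∑ i, x i) ^ 2 + ∑ i, ∑ j, (A i j - d / n) * (x i * x j) := by
    intro x
    have : (∑ i, x i) ^ 2 = ∑ i, ∑ j, x i * x j := by
      rw [sq, Finset.sum_mul_sum]
    rw [this, Finset.mul_sum, ← Finset.sum_add_distrib]
    refine Finset.sum_congr rfl (fun i _ => ?_)
    rw [Finset.mul_sum, ← Finset.sum_add_distrib]
    refine Finset.sum_congr rfl (fun j _ => by ring)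
  have hlin : ∀ (x : Fin n → ℝ) (i : Fin n), ∑ j, A i j * x j
      = d / n * (∑ j, x j) + ∑ j, (A i j - d / n) * x j := by
    intro x i
    rw [Finset.mul_sum, ← Finset.sum_add_distrib]
    refine Finset.sum_congr rfl (fun j _ => by ring)
  -- the key inequality
  have hnn : ∑ i : Fin n, (u i ^ 2 + v i ^ 2) = n := by
    simp [huv]
  have hkey : d / n * R ^ 2 ≥ d * n / 2 - 2 * lam * n := by
    have h1 := hS u
    have h2 := hS v
    rw [hexp] at h1 h2
    have s1 : (∑ i, u i ^ 2 * c i) + (∑ i, v i ^ 2 * c i) = ∑ i, c i := by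
      rw [← Finset.sum_add_distrib]
      refine Finset.sum_congr rfl (fun i _ => ?_)
      rw [← add_mul, huv, one_mul]
    have s2 : (∑ i, ∑ j, A i j * Real.cos (θ i - θ j) * (u i * u j))
        + (∑ i, ∑ j, A i j * Real.cos (θ i - θ j) * (v i * v j))
        = ∑ i, ∑ j, A i j * Real.cos (θ i - θ j) ^ 2 := by
      rw [← Finset.sum_add_distrib]
      refine Finset.sum_congr rfl (fun i _ => ?_)
      rw [← Finset.sum_add_distrib]
      refine Finset.sum_congr rfl (fun j _ => ?_)
      rw [← mul_add, ← hcosd]; ring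
    have s3 : ∑ i, ∑ j, A i j * Real.cos (θ i - θ j) ^ 2
        = 1 / 2 * ((∑ i, ∑ j, A i j * ((1 : ℝ) * 1))
          + (∑ i, ∑ j, A i j * (Real.cos (2 * θ i) * Real.cos (2 * θ j)))
          + (∑ i, ∑ j, A i j * (Real.sin (2 * θ i) * Real.sin (2 * θ j)))) := by
      rw [← Finset.sum_add_distrib, ← Finset.sum_add_distrib, Finset.mul_sum]
      refine Finset.sum_congr rfl (fun i _ => ?_)
      rw [← Finset.sum_add_distrib, ← Finset.sum_add_distrib, Finset.mul_sum]
      refine Finset.sum_congr rfl (fun j _ => ?_)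
      have e1 : Real.cos (2 * θ i) * Real.cos (2 * θ j) + Real.sin (2 * θ i) * Real.sin (2 * θ j)
          = 2 * Real.cos (θ i - θ j) ^ 2 - 1 := by
        rw [← Real.cos_sub, ← Real.cos_two_mul]; ring_nf
      linear_combination (1 / 2 : ℝ) * (A i j) * (-e1)
    have s4 : ∑ i, c i = (∑ i, ∑ j, A i j * (u i * u j)) + (∑ i, ∑ j, A i j * (v i * v j)) := by
      rw [← Finset.sum_add_distrib]
      refine Finset.sum_congr rfl (fun i _ => ?_)
      rw [← Finset.sum_add_distrib]
      refine Finset.sum_congr rfl (fun j _ => ?_)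
      rw [hcosd]; ring
    have f1 := hform u
    have f2 := hform v
    have f3 := hform (fun _ => 1)
    have f4 := hform (fun i => Real.cos (2 * θ i))
    have f5 := hform (fun i => Real.sin (2 * θ i))
    have g1 := (abs_le.mp (hnorm u)).2
    have g2 := (abs_le.mp (hnorm v)).2
    have g3 := (abs_le.mp (hnorm (fun _ => 1))).1
    have g4 := (abs_le.mp (hnorm (fun i => Real.cos (2 * θ i)))).1
    have g5 := (abs_le.mp (hnorm (fun i => Real.sin (2 * θ i)))).1
    have hdn : 0 ≤ d / n := by positivity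
    have p4 : 0 ≤ d / n * (∑ i, Real.cos (2 * θ i)) ^ 2 := by positivity
    have p5 : 0 ≤ d / n * (∑ i, Real.sin (2 * θ i)) ^ 2 := by positivity
    have q1 : (∑ i, u i ^ 2) + (∑ i, v i ^ 2) = n := by rw [← Finset.sum_add_distrib]; exact hnn
    have q2 : (∑ i : Fin n, Real.cos (2 * θ i) ^ 2) + (∑ i : Fin n, Real.sin (2 * θ i) ^ 2) = n := by
      rw [← Finset.sum_add_distrib]
      simp [Real.cos_sq_add_sin_sq]
    have q3 : (∑ _i : Fin n, (1 : ℝ)) = n := by simp
    have q4 : (∑ _i : Fin n, (1 : ℝ) ^ 2) = n := by simp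
    have hv0 : (∑ i, v i) = 0 := hs
    try simp only at f1 f2 f3 f4 f5 g1 g2 g3 g4 g5
    rw [hv0] at f2
    rw [q3] at f3
    rw [q4] at g3
    have q5 : d / n * (n : ℝ) ^ 2 = d * n := by field_simp
    rw [q5] at f3
    have r1 : (∑ i, ∑ j, A i j * (u i * u j)) + (∑ i, ∑ j, A i j * (v i * v j))
        ≥ ∑ i, ∑ j, A i j * Real.cos (θ i - θ j) ^ 2 := by
      rw [← s4, ← s1, ← s2]; linarith
    rw [s3, f1, f2, f3, f4, f5] at r1
    have r2 : lam * (∑ i, u i ^ 2) + lam * (∑ i, v i ^ 2) = lam * n := by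
      rw [← mul_add, q1]
    have r3 : lam * (∑ i : Fin n, Real.cos (2 * θ i) ^ 2)
        + lam * (∑ i : Fin n, Real.sin (2 * θ i) ^ 2) = lam * n := by
      rw [← mul_add, q2]
    nlinarith
  -- rho
  set ρ : ℝ := R / n with hρ
  have hRρ : R = n * ρ := by rw [hρ]; field_simp
  have hρ0 : 0 ≤ ρ := div_nonneg hc hnR.le
  have hρ1 : ρ ≤ 1 := by
    rw [hρ, div_le_one hnR]
    calc R = ∑ i, u i := rfl
      _ ≤ ∑ i : Fin n, (1 : ℝ) := Finset.sum_le_sum (fun i _ => Real.cos_le_one _)
      _ = n := by simp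
  have hρ2 : 1 / 2 ≤ ρ := by
    have h1 : d / n * R ^ 2 = d * n * ρ ^ 2 := by rw [hRρ]; field_simp
    rw [h1] at hkey
    have h2 : d * (n : ℝ) / 4 ≤ d * n * ρ ^ 2 := by
      have : 2 * lam * n ≤ d * n / 4 := by
        have h8 : 8 * lam ≤ d := by nlinarith
        nlinarith
      linarith
    have h3 : (1 / 4 : ℝ) ≤ ρ ^ 2 := by
      have hdn : 0 < d * n := by positivity
      by_contra hneg
      push Not at hneg
      nlinarith
    nlinarith
  -- the energy of the deviation
  set E : ℝ := ∑ i, ((u i - 1) ^ 2 + v i ^ 2) with hE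
  have hE1 : E = 2 * n * (1 - ρ) := by
    have : ∀ i, (u i - 1) ^ 2 + v i ^ 2 = 2 - 2 * u i := fun i => by
      have := huv i; nlinarith
    rw [hE, Finset.sum_congr rfl (fun i _ => this i), Finset.sum_sub_distrib, ← Finset.mul_sum]
    simp only [Finset.sum_const, Finset.card_univ, Fintype.card_fin, nsmul_eq_mul]
    rw [show (∑ i, u i) = R from rfl, hRρ]
    ring
  have hE0 : 0 ≤ E := Finset.sum_nonneg (fun i _ => by positivity)
  -- step 1
  have hstep1 : E ≤ 64 * lam ^ 2 * n / d ^ 2 := by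
    have h1 : E ≤ 16 / (d / 2) ^ 2 * (lam ^ 2 * n) := by
      calc E ≤ ∑ i, 16 / (d / 2) ^ 2 * ((∑ j, (A i j - d / n) * u j) ^ 2
              + (∑ j, (A i j - d / n) * v j) ^ 2) := by
            refine Finset.sum_le_sum (fun i _ => ?_)
            refine site (c i) (u i) (v i) (d * ρ) _ _ (d / 2) (hcpos i) (huv i) ?_ ?_
              (by linarith) (by nlinarith)
            · rw [hcu i, hlin u i, show (∑ j, u j) = R from rfl, hRρ]
              field_simp
            · rw [hcv i, hlin v i, show (∑ j, v j) = 0 from hs]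
              ring
        _ = 16 / (d / 2) ^ 2 * ((∑ i, (∑ j, (A i j - d / n) * u j) ^ 2)
              + (∑ i, (∑ j, (A i j - d / n) * v j) ^ 2)) := by
            rw [← Finset.sum_add_distrib, Finset.mul_sum]
        _ ≤ 16 / (d / 2) ^ 2 * (lam ^ 2 * n) := by
            apply mul_le_mul_of_nonneg_left _ (by positivity)
            have := hop u; have := hop v
            have q1 : (∑ i, u i ^ 2) + (∑ i, v i ^ 2) = n := by
              rw [← Finset.sum_add_distrib]; exact hnn
            calc _ ≤ lam ^ 2 * (∑ i, u i ^ 2) + lam ^ 2 * (∑ i, v i ^ 2) := by linarith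
              _ = lam ^ 2 * n := by rw [← mul_add, q1]
    calc E ≤ 16 / (d / 2) ^ 2 * (lam ^ 2 * n) := h1
      _ = 64 * lam ^ 2 * n / d ^ 2 := by field_simp; ring
  -- step 2
  have hgd : 0 < gam * d := by positivity
  have h64 : 64 * lam ^ 2 < (gam * d) ^ 2 := by nlinarith
  have h1ρ : 1 - ρ ≤ gam / 2 := by
    rw [hE1, le_div_iff₀ (by positivity)] at hstep1
    have h2 : 2 * (n : ℝ) * (1 - ρ) * d ^ 2 ≤ (gam * d) ^ 2 * n := by
      calc 2 * (n : ℝ) * (1 - ρ) * d ^ 2 ≤ 64 * lam ^ 2 * n := hstep1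
        _ ≤ _ := mul_le_mul_of_nonneg_right h64.le hnR.le
    have h3 : 2 * (n : ℝ) * (1 - ρ) * d ^ 2 ≤ (gam * d ^ 2) * n := by
      refine h2.trans ?_
      apply mul_le_mul_of_nonneg_right _ hnR.le
      have : gam ^ 2 ≤ gam := by nlinarith
      nlinarith [sq_nonneg d]
    have h4 : (2 * (1 - ρ)) * (n * d ^ 2) ≤ gam * (n * d ^ 2) := by linarith
    have h5 : 2 * (1 - ρ) ≤ gam := le_of_mul_le_mul_right h4 (by positivity)
    linarith
  have hstep2 : E ≤ 16 / (gam * d / 2) ^ 2 * (lam ^ 2 * E) := by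
    calc E ≤ ∑ i, 16 / (gam * d / 2) ^ 2 * ((∑ j, (A i j - d / n) * (u j - 1)) ^ 2
              + (∑ j, (A i j - d / n) * v j) ^ 2) := by
            refine Finset.sum_le_sum (fun i _ => ?_)
            refine site (c i) (u i) (v i) ((∑ j, A i j) - d * (1 - ρ)) _ _ (gam * d / 2)
              (hcpos i) (huv i) ?_ ?_ (by linarith) ?_
            · rw [hcu i]
              have e1 : ∑ j, A i j * u j = (∑ j, A i j) + ∑ j, A i j * (u j - 1) := by
                rw [← Finset.sum_add_distrib]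
                refine Finset.sum_congr rfl (fun j _ => by ring)
              rw [e1, hlin (fun j => u j - 1) i]
              have e2 : ∑ j, (u j - 1) = n * ρ - n := by
                rw [Finset.sum_sub_distrib, show (∑ j, u j) = R from rfl, hRρ]
                simp
              simp only [e2]
              field_simp
              ring
            · rw [hcv i, hlin v i, show (∑ j, v j) = 0 from hs]
              ring
            · have := hrow i
              nlinarith
        _ = 16 / (gam * d / 2) ^ 2 * ((∑ i, (∑ j, (A i j - d / n) * (u j - 1)) ^ 2)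
              + (∑ i, (∑ j, (A i j - d / n) * v j) ^ 2)) := by
            rw [← Finset.sum_add_distrib, Finset.mul_sum]
        _ ≤ 16 / (gam * d / 2) ^ 2 * (lam ^ 2 * E) := by
            apply mul_le_mul_of_nonneg_left _ (by positivity)
            have := hop (fun j => u j - 1); have := hop v
            calc _ ≤ lam ^ 2 * (∑ i, (u i - 1) ^ 2) + lam ^ 2 * (∑ i, v i ^ 2) := by linarith
              _ = lam ^ 2 * E := by rw [← mul_add, hE, Finset.sum_add_distrib]
  have hE00 : E = 0 := by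
    have h1 : 16 / (gam * d / 2) ^ 2 * (lam ^ 2 * E) = 64 * lam ^ 2 / (gam * d) ^ 2 * E := by
      field_simp; ring
    rw [h1] at hstep2
    have h2 : 64 * lam ^ 2 / (gam * d) ^ 2 < 1 := by
      rw [div_lt_one (by positivity)]; exact h64
    by_contra hne
    have hpos : 0 < E := lt_of_le_of_ne hE0 (Ne.symm hne)
    nlinarith
  intro i
  have h1 : (u i - 1) ^ 2 + v i ^ 2 = 0 := by
    have := (Finset.sum_eq_zero_iff_of_nonneg (fun i _ => by positivity)).mp (hE ▸ hE00)
    exact this i (Finset.mem_univ i)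
  have h2 : u i = 1 := by nlinarith [sq_nonneg (u i - 1), sq_nonneg (v i)]
  exact h2

end Pool.T2h84GS
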