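import Pool.Agent.T2h84.GS.Det

set_option autoImplicit false
open Finset Filter Topology

namespace Pool.T2h84GS

variable {n : ℕ}

/-- The first variation vanishes at a local minimum. -/
theorem first_order (A : Fin n → Fin n → ℝ) (hA : ∀ i j, A i j = A j i) (θ : Fin n → ℝ)
    (h : IsLocalMin (fun φ : Fin n → ℝ => (1/2 : ℝ) * ∑ i : Fin n, ∑ j : Fin n,
      A i j * (1 - Real.cos (φ i - φ j))) θ) (i : Fin n) :
    ∑ j, A i j * Real.sin (θ i - θ j) = 0 := by
  classical
  set x : Fin n → ℝ := fun k => if k = i then 1 else 0 with hx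
  set g : ℝ → (Fin n → ℝ) := fun t => fun k => θ k + t * x k with hg
  have hg0 : g 0 = θ := by funext k; simp [hg]
  have hgc : ContinuousAt g 0 := by
    apply Continuous.continuousAt
    rw [hg]
    fun_prop
  have h1 : IsLocalMin ((fun φ : Fin n → ℝ => (1/2 : ℝ) * ∑ i : Fin n, ∑ j : Fin n,
      A i j * (1 - Real.cos (φ i - φ j))) ∘ g) 0 := by
    have h' := h
    rw [← hg0] at h'
    exact h'.comp_tendsto hgc
  have hd : HasDerivAt ((fun φ : Fin n → ℝ => (1/2 : ℝ) * ∑ i : Fin n, ∑ j : Fin n,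
      A i j * (1 - Real.cos (φ i - φ j))) ∘ g)
      ((1/2 : ℝ) * ∑ k, ∑ l, A k l * (Real.sin (θ k - θ l) * (x k - x l))) 0 := by
    have : ∀ k l : Fin n, HasDerivAt (fun t : ℝ => A k l * (1 - Real.cos (g t k - g t l)))
        (A k l * (Real.sin (θ k - θ l) * (x k - x l))) 0 := by
      intro k l
      have e1 : HasDerivAt (fun t : ℝ => g t k - g t l) (x k - x l) 0 := by
        have a1 : HasDerivAt (fun t : ℝ => θ k + t * x k) (x k) 0 := by
          simpa using ((hasDerivAt_id (0 : ℝ)).mul_const (x k)).const_add (θ k)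
        have a2 : HasDerivAt (fun t : ℝ => θ l + t * x l) (x l) 0 := by
          simpa using ((hasDerivAt_id (0 : ℝ)).mul_const (x l)).const_add (θ l)
        exact a1.sub a2
      have e2 := (e1.cos.const_sub 1).const_mul (A k l)
      have e3 : A k l * -(-Real.sin (g 0 k - g 0 l) * (x k - x l))
          = A k l * (Real.sin (θ k - θ l) * (x k - x l)) := by
        rw [hg0]; ring
      rw [e3] at e2
      exact e2
    have h2 : HasDerivAt (fun t : ℝ => ∑ k, ∑ l, A k l * (1 - Real.cos (g t k - g t l)))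
        (∑ k, ∑ l, A k l * (Real.sin (θ k - θ l) * (x k - x l))) 0 := by
      apply HasDerivAt.fun_sum
      intro k _
      apply HasDerivAt.fun_sum
      intro l _
      exact this k l
    exact h2.const_mul (1/2 : ℝ)
  have h3 := h1.hasDerivAt_eq_zero hd
  have h4 : ∑ k, ∑ l, A k l * (Real.sin (θ k - θ l) * (x k - x l))
      = 2 * ∑ j, A i j * Real.sin (θ i - θ j) := by
    have s0 : ∑ k, ∑ l, A k l * (Real.sin (θ k - θ l) * (x k - x l))
        = (∑ k, ∑ l, A k l * (Real.sin (θ k - θ l) * x k))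
          - ∑ k, ∑ l, A k l * (Real.sin (θ k - θ l) * x l) := by
      rw [← Finset.sum_sub_distrib]
      refine Finset.sum_congr rfl (fun k _ => ?_)
      rw [← Finset.sum_sub_distrib]
      refine Finset.sum_congr rfl (fun l _ => by ring)
    have s1 : ∑ k, ∑ l, A k l * (Real.sin (θ k - θ l) * x l)
        = - ∑ k, ∑ l, A k l * (Real.sin (θ k - θ l) * x k) := by
      rw [Finset.sum_comm, ← Finset.sum_neg_distrib]
      refine Finset.sum_congr rfl (fun k _ => ?_)
      rw [← Finset.sum_neg_distrib]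
      refine Finset.sum_congr rfl (fun l _ => ?_)
      rw [hA l k, show θ l - θ k = -(θ k - θ l) by ring, Real.sin_neg]
      ring
    have s2 : ∑ k, ∑ l, A k l * (Real.sin (θ k - θ l) * x k)
        = ∑ j, A i j * Real.sin (θ i - θ j) := by
      rw [Finset.sum_eq_single i]
      · refine Finset.sum_congr rfl (fun l _ => ?_)
        simp [hx]
      · intro b _ hb
        refine Finset.sum_eq_zero (fun l _ => ?_)
        simp [hx, hb]
      · intro h; exact absurd (Finset.mem_univ i) h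
    rw [s0, s1, s2]
    ring
  rw [h4] at h3
  linarith

/-- The second variation is nonnegative at a local minimum. -/
theorem second_order (A : Fin n → Fin n → ℝ) (θ : Fin n → ℝ)
    (h : IsLocalMin (fun φ : Fin n → ℝ => (1/2 : ℝ) * ∑ i : Fin n, ∑ j : Fin n,
      A i j * (1 - Real.cos (φ i - φ j))) θ) (x : Fin n → ℝ) :
    0 ≤ ∑ i, ∑ j, A i j * Real.cos (θ i - θ j) * (x i - x j) ^ 2 := by
  set g : ℝ → (Fin n → ℝ) := fun t => fun k => θ k + t * x k with hg
  have hg0 : g 0 = θ := by funext k; simp [hg]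
  have hgc : ContinuousAt g 0 := by
    apply Continuous.continuousAt
    rw [hg]
    fun_prop
  have h1 : IsLocalMin ((fun φ : Fin n → ℝ => (1/2 : ℝ) * ∑ i : Fin n, ∑ j : Fin n,
      A i j * (1 - Real.cos (φ i - φ j))) ∘ g) 0 := by
    have h' := h
    rw [← hg0] at h'
    exact h'.comp_tendsto hgc
  have h2 : ∀ᶠ t : ℝ in 𝓝 0, ((fun φ : Fin n → ℝ => (1/2 : ℝ) * ∑ i : Fin n, ∑ j : Fin n,
      A i j * (1 - Real.cos (φ i - φ j))) ∘ g) 0
      ≤ ((fun φ : Fin n → ℝ => (1/2 : ℝ) * ∑ i : Fin n, ∑ j : Fin n,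
      A i j * (1 - Real.cos (φ i - φ j))) ∘ g) t := h1
  have hneg : Tendsto (fun t : ℝ => -t) (𝓝 0) (𝓝 0) := by
    have := (continuous_neg (G := ℝ)).tendsto 0
    simpa using this
  have h3 := hneg.eventually h2
  have h4 : ∀ᶠ t : ℝ in 𝓝 0, 0 ≤ ∑ i, ∑ j, A i j * Real.cos (θ i - θ j)
      * (2 * Real.sin (t * (x i - x j) / 2) ^ 2) := by
    filter_upwards [h2, h3] with t ht1 ht2
    have e : ∑ i, ∑ j, A i j * Real.cos (θ i - θ j) * (2 * Real.sin (t * (x i - x j) / 2) ^ 2)
        = (1/2 : ℝ) * (∑ i, ∑ j, A i j * (1 - Real.cos (g t i - g t j)))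
          + (1/2 : ℝ) * (∑ i, ∑ j, A i j * (1 - Real.cos (g (-t) i - g (-t) j)))
          - 2 * ((1/2 : ℝ) * (∑ i, ∑ j, A i j * (1 - Real.cos (g 0 i - g 0 j)))) := by
      rw [Finset.mul_sum, Finset.mul_sum, Finset.mul_sum, Finset.mul_sum,
        ← Finset.sum_add_distrib, ← Finset.sum_sub_distrib]
      refine Finset.sum_congr rfl (fun i _ => ?_)
      rw [Finset.mul_sum, Finset.mul_sum, Finset.mul_sum, Finset.mul_sum,
        ← Finset.sum_add_distrib, ← Finset.sum_sub_distrib]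
      refine Finset.sum_congr rfl (fun j _ => ?_)
      have a1 : g t i - g t j = (θ i - θ j) + t * (x i - x j) := by simp only [hg]; ring
      have a2 : g (-t) i - g (-t) j = (θ i - θ j) - t * (x i - x j) := by simp only [hg]; ring
      have a3 : g 0 i - g 0 j = θ i - θ j := by simp only [hg]; ring
      rw [a1, a2, a3, Real.cos_add, Real.cos_sub (θ i - θ j)]
      have a4 : 2 * Real.sin (t * (x i - x j) / 2) ^ 2 = 1 - Real.cos (t * (x i - x j)) := by
        have := Real.cos_sq' (t * (x i - x j) / 2)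
        have b := Real.cos_two_mul (t * (x i - x j) / 2)
        rw [show 2 * (t * (x i - x j) / 2) = t * (x i - x j) by ring] at b
        rw [b, this]; ring
      rw [a4]
      ring
    rw [e]
    simp only [Function.comp] at ht1 ht2
    linarith
  have h5 : ∀ᶠ t : ℝ in 𝓝[≠] 0, 0 ≤ ∑ i, ∑ j, A i j * Real.cos (θ i - θ j)
      * (2 * (t⁻¹ * Real.sin (t * (x i - x j) / 2)) ^ 2) := by
    have h6 : ∀ᶠ t : ℝ in 𝓝[≠] 0, 0 ≤ ∑ i, ∑ j, A i j * Real.cos (θ i - θ j)
      * (2 * Real.sin (t * (x i - x j) / 2) ^ 2) := nhdsWithin_le_nhds h4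
    filter_upwards [h6] with t ht
    have e : ∑ i, ∑ j, A i j * Real.cos (θ i - θ j)
      * (2 * (t⁻¹ * Real.sin (t * (x i - x j) / 2)) ^ 2)
      = (t⁻¹) ^ 2 * ∑ i, ∑ j, A i j * Real.cos (θ i - θ j)
      * (2 * Real.sin (t * (x i - x j) / 2) ^ 2) := by
      rw [Finset.mul_sum]
      refine Finset.sum_congr rfl (fun i _ => ?_)
      rw [Finset.mul_sum]
      refine Finset.sum_congr rfl (fun j _ => by ring)
    rw [e]
    exact mul_nonneg (sq_nonneg _) ht
  have h7 : Tendsto (fun t : ℝ => ∑ i, ∑ j, A i j * Real.cos (θ i - θ j)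
      * (2 * (t⁻¹ * Real.sin (t * (x i - x j) / 2)) ^ 2)) (𝓝[≠] 0)
      (𝓝 (∑ i, ∑ j, A i j * Real.cos (θ i - θ j) * (2 * ((x i - x j) / 2) ^ 2))) := by
    apply tendsto_finsetSum
    intro i _
    apply tendsto_finsetSum
    intro j _
    apply Tendsto.const_mul
    apply Tendsto.const_mul
    apply Tendsto.pow
    have d1 : HasDerivAt (fun t : ℝ => Real.sin (t * (x i - x j) / 2)) ((x i - x j) / 2) 0 := by
      have a0 : HasDerivAt (fun t : ℝ => t * (x i - x j) / 2) ((x i - x j) / 2) 0 := by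
        simpa using ((hasDerivAt_id (0 : ℝ)).mul_const (x i - x j)).div_const 2
      simpa using a0.sin
    have d2 := hasDerivAt_iff_tendsto_slope.mp d1
    refine d2.congr (fun t => ?_)
    simp [slope]
  have h8 := ge_of_tendsto h7 h5
  have e : ∑ i, ∑ j, A i j * Real.cos (θ i - θ j) * (2 * ((x i - x j) / 2) ^ 2)
      = (1 / 2 : ℝ) * ∑ i, ∑ j, A i j * Real.cos (θ i - θ j) * (x i - x j) ^ 2 := by
    rw [Finset.mul_sum]
    refine Finset.sum_congr rfl (fun i _ => ?_)
    rw [Finset.mul_sum]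
    refine Finset.sum_congr rfl (fun j _ => by ring)
  rw [e] at h8
  linarith

/-- The deterministic theorem. -/
theorem det (A : Fin n → Fin n → ℝ) (hA : ∀ i j, A i j = A j i) (hA0 : ∀ i, A i i = 0)
    (d lam gam : ℝ) (hlam : 0 < lam) (hgam : 0 < gam) (hgam1 : gam ≤ 1)
    (hlg : 8 * lam < gam * d)
    (hnorm : ∀ x : Fin n → ℝ,
      |∑ i, ∑ j, (A i j - d / n) * (x i * x j)| ≤ lam * ∑ i, x i ^ 2)
    (hrow : ∀ i, gam * d ≤ ∑ j, A i j)
    (θ : Fin n → ℝ)
    (h : IsLocalMin (fun φ : Fin n → ℝ => (1/2 : ℝ) * ∑ i : Fin n, ∑ j : Fin n,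
      A i j * (1 - Real.cos (φ i - φ j))) θ) (i j : Fin n) :
    ∃ k : ℤ, θ i - θ j = 2 * Real.pi * (k : ℝ) := by
  have hn : 0 < n := i.pos
  set Z : ℂ := ⟨∑ k, Real.cos (θ k), ∑ k, Real.sin (θ k)⟩ with hZ
  set p : ℝ := Complex.arg Z with hp
  have hre : ‖Z‖ * Real.cos p = ∑ k, Real.cos (θ k) := Complex.norm_mul_cos_arg Z
  have him : ‖Z‖ * Real.sin p = ∑ k, Real.sin (θ k) := Complex.norm_mul_sin_arg Z
  have hF := first_order A hA θ h
  have hS := second_order A θ h
  have hs : ∑ k, Real.sin (θ k - p) = 0 := by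
    have : ∑ k, Real.sin (θ k - p) = (∑ k, Real.sin (θ k)) * Real.cos p
        - (∑ k, Real.cos (θ k)) * Real.sin p := by
      rw [Finset.sum_mul, Finset.sum_mul, ← Finset.sum_sub_distrib]
      exact Finset.sum_congr rfl (fun k _ => Real.sin_sub _ _)
    rw [this, ← hre, ← him]; ring
  have hc : 0 ≤ ∑ k, Real.cos (θ k - p) := by
    have : ∑ k, Real.cos (θ k - p) = (∑ k, Real.cos (θ k)) * Real.cos p
        + (∑ k, Real.sin (θ k)) * Real.sin p := by
      rw [Finset.sum_mul, Finset.sum_mul, ← Finset.sum_add_distrib]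
      exact Finset.sum_congr rfl (fun k _ => Real.cos_sub _ _)
    rw [this, ← hre, ← him]
    have e : ‖Z‖ * Real.cos p * Real.cos p + ‖Z‖ * Real.sin p * Real.sin p = ‖Z‖ := by
      have := Real.sin_sq_add_cos_sq p
      linear_combination ‖Z‖ * this
    rw [e]
    exact norm_nonneg Z
  have hcore := core A hA hA0 hn d lam gam hlam hgam hgam1 hlg hnorm hrow (fun k => θ k - p)
    (fun i => by
      have := hF i
      simpa only [sub_sub_sub_cancel_right] using this)
    (fun x => by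
      have := hS x
      simpa only [sub_sub_sub_cancel_right] using this) hs hc
  obtain ⟨a, ha⟩ := (Real.cos_eq_one_iff _).mp (hcore i)
  obtain ⟨b, hb⟩ := (Real.cos_eq_one_iff _).mp (hcore j)
  refine ⟨a - b, ?_⟩
  push_cast
  linarith

end Pool.T2h84GS
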