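import Pool.Agent.T2h84.GS.Norm
import Pool.Agent.T2h84.GS.Var

set_option autoImplicit false

open Finset Filter Topology

namespace Pool.T2h84GS

variable {n : ℕ}

/-- The matrix of a sign pattern. -/
noncomputable def mat (s : Fin n → Fin n → Bool) (i j : Fin n) : ℝ :=
  if i < j then (if s i j = true then (1:ℝ) else -1)
    else if j < i then (if s j i = true then (1:ℝ) else -1) else 0

theorem mat_symm (s : Fin n → Fin n → Bool) (i j : Fin n) : mat s i j = mat s j i := by
  unfold mat
  rcases lt_trichotomy i j with h | h | h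
  · rw [if_pos h, if_neg h.not_gt, if_pos h]
  · subst h; rfl
  · rw [if_neg h.not_gt, if_pos h, if_pos h]

theorem mat_diag (s : Fin n → Fin n → Bool) (i : Fin n) : mat s i i = 0 := by
  unfold mat
  simp

theorem mat_lt (s : Fin n → Fin n → Bool) (i j : Fin n) (h : i < j) : mat s i j = sg (s i j) := by
  unfold mat sg
  rw [if_pos h]

/-- Splitting a double sum into the upper triangle and the diagonal. -/
theorem sum_split (f : Fin n → Fin n → ℝ) :
    ∑ i, ∑ j, f i j = (∑ i, ∑ j, (if i < j then f i j + f j i else 0)) + ∑ i, f i i := by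
  have e1 : ∀ i j : Fin n, f i j = (if i < j then f i j else 0) + (if j < i then f i j else 0)
      + (if i = j then f i j else 0) := by
    intro i j
    rcases lt_trichotomy i j with h | h | h
    · simp [h, h.not_gt, h.ne]
    · subst h; simp
    · simp [h, h.not_gt, h.ne']
  have s2 : ∑ i, ∑ j, (if j < i then f i j else 0) = ∑ i, ∑ j, (if i < j then f j i else 0) := by
    rw [Finset.sum_comm]
  have s3 : ∑ i, ∑ j, (if i = j then f i j else 0) = ∑ i, f i i := by
    refine Finset.sum_congr rfl (fun i _ => ?_)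
    simp
  calc ∑ i, ∑ j, f i j = ∑ i, ∑ j, ((if i < j then f i j else 0) + (if j < i then f i j else 0)
      + (if i = j then f i j else 0)) :=
        Finset.sum_congr rfl (fun i _ => Finset.sum_congr rfl (fun j _ => e1 i j))
    _ = (∑ i, ∑ j, (if i < j then f i j else 0)) + (∑ i, ∑ j, (if j < i then f i j else 0))
        + ∑ i, ∑ j, (if i = j then f i j else 0) := by
        simp only [Finset.sum_add_distrib]
    _ = _ := by
        rw [s2, s3, ← Finset.sum_add_distrib]
        congr 1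
        refine Finset.sum_congr rfl (fun i _ => ?_)
        rw [← Finset.sum_add_distrib]
        refine Finset.sum_congr rfl (fun j _ => ?_)
        split_ifs <;> simp

/-- The form of the centred matrix. -/
theorem form_eq_lin (δ : ℝ) (s : Fin n → Fin n → Bool) (x : Fin n → ℝ) :
    ∑ i, ∑ j, (mat s i j - 2 * δ) * (x i * x j)
      = lin δ (fun i j => 2 * (x i * x j)) s - 2 * δ * ∑ i, x i ^ 2 := by
  rw [sum_split]
  unfold lin
  have e1 : ∑ i, (mat s i i - 2 * δ) * (x i * x i) = - (2 * δ * ∑ i, x i ^ 2) := by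
    rw [Finset.mul_sum, ← Finset.sum_neg_distrib]
    refine Finset.sum_congr rfl (fun i _ => ?_)
    rw [mat_diag]; ring
  rw [e1, sub_eq_add_neg]
  congr 1
  refine Finset.sum_congr rfl (fun i _ => Finset.sum_congr rfl (fun j _ => ?_))
  by_cases h : i < j
  · rw [if_pos h, if_pos h, mat_symm s j i, mat_lt s i j h]; ring
  · rw [if_neg h, if_neg h]

theorem lin_smul (δ κ : ℝ) (c : Fin n → Fin n → ℝ) (s : Fin n → Fin n → Bool) :
    lin δ (fun i j => κ * c i j) s = κ * lin δ c s := by
  unfold lin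
  rw [Finset.mul_sum]
  refine Finset.sum_congr rfl (fun i _ => ?_)
  rw [Finset.mul_sum]
  refine Finset.sum_congr rfl (fun j _ => ?_)
  split_ifs <;> ring

/-- The tail of one quadratic form. -/
theorem tail_form (δ : ℝ) (h0 : 0 ≤ δ) (h1 : δ ≤ 1/2) (t : Fin n → ℝ) (ht : ∑ i, t i ^ 2 = 1)
    (σ : ℝ) (hσ : σ ^ 2 = 1) (τ : ℝ) (hτ : 0 < τ) :
    ∑ s : Fin n → Fin n → Bool,
      (if τ ≤ σ * lin δ (fun i j => 2 * (t i * t j)) s then wt n δ s else 0)
      ≤ Real.exp (-(τ ^ 2 / 4)) := by
  have h := chernoff δ h0 h1 (fun i j : Fin n => (τ / 2 * σ) * (2 * (t i * t j))) (τ ^ 2 / 2)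
  have e1 : ∀ s : Fin n → Fin n → Bool,
      (if τ ≤ σ * lin δ (fun i j => 2 * (t i * t j)) s then wt n δ s else 0)
      = (if τ ^ 2 / 2 ≤ lin δ (fun i j : Fin n => (τ / 2 * σ) * (2 * (t i * t j))) s
          then wt n δ s else 0) := by
    intro s
    rw [lin_smul δ (τ / 2 * σ) (fun i j => 2 * (t i * t j)) s]
    have : (τ ≤ σ * lin δ (fun i j => 2 * (t i * t j)) s)
        ↔ (τ ^ 2 / 2 ≤ τ / 2 * σ * lin δ (fun i j => 2 * (t i * t j)) s) := by
      constructor
      · intro h; nlinarith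
      · intro h; nlinarith
    by_cases hb : τ ≤ σ * lin δ (fun i j => 2 * (t i * t j)) s
    · rw [if_pos hb, if_pos (this.mp hb)]
    · rw [if_neg hb, if_neg (fun hc => hb (this.mpr hc))]
  rw [Finset.sum_congr rfl (fun s _ => e1 s)]
  refine h.trans ?_
  apply Real.exp_le_exp.mpr
  have hV : ∑ i, ∑ j, (if i < j then ((τ / 2 * σ) * (2 * (t i * t j))) ^ 2 else 0) ≤ τ ^ 2 / 2 := by
    have e2 : (∑ i, t i ^ 2) * (∑ i, t i ^ 2) = ∑ i, ∑ j, t i ^ 2 * t j ^ 2 := by
      rw [Finset.sum_mul_sum]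
    have e3 := sum_split (fun i j : Fin n => t i ^ 2 * t j ^ 2)
    have e4 : 0 ≤ ∑ i, t i ^ 2 * t i ^ 2 := Finset.sum_nonneg (fun i _ => by positivity)
    rw [← e2, ht] at e3
    have e5 : ∑ i, ∑ j, (if i < j then ((τ / 2 * σ) * (2 * (t i * t j))) ^ 2 else 0)
        = τ ^ 2 / 2 * ∑ i, ∑ j, (if i < j then t i ^ 2 * t j ^ 2 + t j ^ 2 * t i ^ 2 else 0) := by
      rw [Finset.mul_sum]
      refine Finset.sum_congr rfl (fun i _ => ?_)
      rw [Finset.mul_sum]
      refine Finset.sum_congr rfl (fun j _ => ?_)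
      split_ifs
      · linear_combination (τ ^ 2 * t i ^ 2 * t j ^ 2) * hσ
      · ring
    rw [e5]
    have e6 : ∑ i, ∑ j, (if i < j then t i ^ 2 * t j ^ 2 + t j ^ 2 * t i ^ 2 else 0) ≤ 1 := by
      linarith
    nlinarith [sq_nonneg τ]
  linarith

/-- Tail of one row sum. -/
theorem tail_row (hn : 0 < n) (δ : ℝ) (h0 : 0 ≤ δ) (h1 : δ ≤ 1/2) (k : Fin n) (τ : ℝ)
    (hτ : 0 < τ) :
    ∑ s : Fin n → Fin n → Bool,
      (if ∑ j, mat s k j < 2 * δ * (n - 1) - τ then wt n δ s else 0)
      ≤ Real.exp (-(τ ^ 2 / (2 * n))) := by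
  have hnR : (0 : ℝ) < n := by exact_mod_cast hn
  set c : Fin n → Fin n → ℝ := fun i j => (if i = k then (1:ℝ) else 0) + (if j = k then 1 else 0)
    with hc
  have hlin : ∀ s : Fin n → Fin n → Bool, lin δ c s = ∑ j, mat s k j - 2 * δ * (n - 1) := by
    intro s
    have e1 := sum_split (fun i j : Fin n => (if i = k then (1:ℝ) else 0) * (mat s i j - 2 * δ))
    have e2 : ∑ i, ∑ j, (if i = k then (1:ℝ) else 0) * (mat s i j - 2 * δ)
        = ∑ j, (mat s k j - 2 * δ) := by
      rw [Finset.sum_eq_single k]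
      · simp
      · intro b _ hb; simp [hb]
      · intro h; exact absurd (Finset.mem_univ k) h
    have e3 : ∑ i, (if i = k then (1:ℝ) else 0) * (mat s i i - 2 * δ) = - (2 * δ) := by
      rw [Finset.sum_eq_single k]
      · simp [mat_diag]
      · intro b _ hb; simp [hb]
      · intro h; exact absurd (Finset.mem_univ k) h
    have e4 : ∑ i, ∑ j, (if i < j then (if i = k then (1:ℝ) else 0) * (mat s i j - 2 * δ)
        + (if j = k then (1:ℝ) else 0) * (mat s j i - 2 * δ) else 0) = lin δ c s := by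
      unfold lin
      refine Finset.sum_congr rfl (fun i _ => Finset.sum_congr rfl (fun j _ => ?_))
      by_cases h : i < j
      · rw [if_pos h, if_pos h, mat_symm s j i, mat_lt s i j h, hc]; ring
      · rw [if_neg h, if_neg h]
    rw [e2, e4, e3, Finset.sum_sub_distrib] at e1
    simp only [Finset.sum_const, Finset.card_univ, Fintype.card_fin, nsmul_eq_mul] at e1
    linarith
  have hV : ∑ i, ∑ j, (if i < j then c i j ^ 2 else 0) ≤ n := by
    have e1 := sum_split (fun i j : Fin n => (if i = k then (1:ℝ) else 0))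
    have e2 : ∑ i : Fin n, ∑ _j : Fin n, (if i = k then (1:ℝ) else 0) = n := by
      rw [Finset.sum_comm]
      simp
    have e3 : 0 ≤ ∑ i : Fin n, (if i = k then (1:ℝ) else 0) :=
      Finset.sum_nonneg (fun i _ => by split_ifs <;> norm_num)
    have e4 : ∑ i, ∑ j, (if i < j then c i j ^ 2 else 0)
        = ∑ i, ∑ j, (if i < j then (if i = k then (1:ℝ) else 0) + (if j = k then (1:ℝ) else 0)
          else 0) := by
      refine Finset.sum_congr rfl (fun i _ => Finset.sum_congr rfl (fun j _ => ?_))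
      by_cases h : i < j
      · rw [if_pos h, if_pos h, hc]
        by_cases hi : i = k
        · have hj : j ≠ k := by rw [← hi]; exact h.ne'
          simp [hi, hj]
        · by_cases hj : j = k <;> simp [hi, hj]
      · rw [if_neg h, if_neg h]
    rw [e4]
    rw [e2] at e1
    linarith
  have h := chernoff δ h0 h1 (fun i j : Fin n => (-(τ / n)) * c i j) (τ ^ 2 / n)
  refine le_trans ?_ (h.trans ?_)
  · refine Finset.sum_le_sum (fun s _ => ?_)
    have hw := wt_nonneg δ h0 h1 s
    by_cases hs : ∑ j, mat s k j < 2 * δ * (n - 1) - τ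
    · rw [if_pos hs, if_pos]
      rw [lin_smul, hlin]
      have h3 : τ ≤ -(∑ j, mat s k j - 2 * δ * (n - 1)) := by linarith
      calc τ ^ 2 / n = τ / n * τ := by ring
        _ ≤ τ / n * (-(∑ j, mat s k j - 2 * δ * (n - 1))) :=
            mul_le_mul_of_nonneg_left h3 (by positivity)
        _ = _ := by ring
    · rw [if_neg hs]
      split_ifs
      · exact hw
      · exact le_refl _
  · apply Real.exp_le_exp.mpr
    have e5 : ∑ i, ∑ j, (if i < j then (-(τ / n) * c i j) ^ 2 else 0)
        = (τ / n) ^ 2 * ∑ i, ∑ j, (if i < j then c i j ^ 2 else 0) := by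
      rw [Finset.mul_sum]
      refine Finset.sum_congr rfl (fun i _ => ?_)
      rw [Finset.mul_sum]
      refine Finset.sum_congr rfl (fun j _ => ?_)
      split_ifs <;> ring
    rw [e5]
    have e6 : (τ / n) ^ 2 * ∑ i, ∑ j, (if i < j then c i j ^ 2 else 0) ≤ (τ / n) ^ 2 * n :=
      mul_le_mul_of_nonneg_left hV (sq_nonneg _)
    have e7 : (τ / n) ^ 2 * n = τ ^ 2 / n := by field_simp
    have e8 : τ ^ 2 / (2 * n) = τ ^ 2 / n / 2 := by field_simp
    rw [e8]
    linarith

end Pool.T2h84GS
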