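import Mathlib

set_option autoImplicit false
open Finset MeasureTheory ProbabilityTheory

namespace Pool.T2h84GS

variable {n : ℕ}

/-- Two point Hoeffding lemma. -/
theorem two_point (δ : ℝ) (h0 : 0 ≤ δ) (h1 : δ ≤ 1/2) (c : ℝ) :
    (1/2 + δ) * Real.exp (c * (1 - 2 * δ)) + (1/2 - δ) * Real.exp (c * (-1 - 2 * δ))
      ≤ Real.exp (c ^ 2 / 2) := by
  set μ : Measure Bool := ENNReal.ofReal (1/2 + δ) • Measure.dirac true
    + ENNReal.ofReal (1/2 - δ) • Measure.dirac false with hμ
  have hprob : IsProbabilityMeasure μ := by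
    constructor
    rw [hμ]
    simp only [Measure.coe_add, Measure.coe_smul, Pi.add_apply, Pi.smul_apply, measure_univ,
      smul_eq_mul, mul_one]
    rw [← ENNReal.ofReal_add (by linarith) (by linarith)]
    norm_num
  set X : Bool → ℝ := fun b => if b = true then 1 - 2 * δ else -1 - 2 * δ with hX
  have hint : ∀ f : Bool → ℝ, ∫ b, f b ∂μ = (1/2 + δ) * f true + (1/2 - δ) * f false := by
    intro f
    rw [hμ, integral_add_measure, integral_smul_measure, integral_smul_measure,
      integral_dirac, integral_dirac, ENNReal.toReal_ofReal (by linarith),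
      ENNReal.toReal_ofReal (by linarith), smul_eq_mul, smul_eq_mul]
    · exact Integrable.smul_measure (Integrable.of_finite) ENNReal.ofReal_ne_top
    · exact Integrable.smul_measure (Integrable.of_finite) ENNReal.ofReal_ne_top
  have hsub : HasSubgaussianMGF X ((‖(1 - 2 * δ) - (-1 - 2 * δ)‖₊ / 2) ^ 2) μ := by
    apply hasSubgaussianMGF_of_mem_Icc_of_integral_eq_zero
    · exact (measurable_of_finite X).aemeasurable
    · refine Filter.Eventually.of_forall (fun b => ?_)
      cases b
      · simp only [hX]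
        constructor <;> simp
      · simp only [hX]
        constructor <;> simp
    · rw [hint]
      simp only [hX, if_true, Bool.false_eq_true, if_false]
      ring
  have h := hsub.mgf_le c
  have hm : mgf X μ c = (1/2 + δ) * Real.exp (c * (1 - 2 * δ))
      + (1/2 - δ) * Real.exp (c * (-1 - 2 * δ)) := by
    rw [mgf, hint]
    simp [hX]
  rw [hm] at h
  refine h.trans (le_of_eq ?_)
  congr 1
  have : (((‖(1 - 2 * δ) - (-1 - 2 * δ)‖₊ / 2) ^ 2 : NNReal) : ℝ) = 1 := by
    push_cast
    rw [show (1 - 2 * δ) - (-1 - 2 * δ) = 2 by ring]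
    norm_num
  rw [this]
  ring

theorem sum_prod_prod (f : Fin n → Fin n → Bool → ℝ) :
    ∑ s : Fin n → Fin n → Bool, ∏ i, ∏ j, f i j (s i j)
      = ∏ i, ∏ j, (f i j true + f i j false) := by
  have h1 : ∀ i, ∏ j, (f i j true + f i j false)
      = ∑ r : Fin n → Bool, ∏ j, f i j (r j) := by
    intro i
    have : ∏ j, (f i j true + f i j false) = ∏ j, ∑ b : Bool, f i j b := by
      refine Finset.prod_congr rfl (fun j _ => ?_)
      rw [Fintype.sum_bool]
    rw [this, Finset.prod_univ_sum, Fintype.piFinset_univ]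
  rw [Finset.prod_congr rfl (fun i _ => h1 i), Finset.prod_univ_sum, Fintype.piFinset_univ]

/-- The weight of a sign pattern. -/
noncomputable def wt (n : ℕ) (δ : ℝ) (s : Fin n → Fin n → Bool) : ℝ :=
  ∏ i : Fin n, ∏ j : Fin n,
    (if i < j then (if s i j = true then (1/2 : ℝ) + δ else (1/2 : ℝ) - δ) else (1/2 : ℝ))

/-- The sign of a Boolean. -/
noncomputable def sg (b : Bool) : ℝ := if b = true then 1 else -1

theorem wt_nonneg (δ : ℝ) (h0 : 0 ≤ δ) (h1 : δ ≤ 1/2) (s : Fin n → Fin n → Bool) :
    0 ≤ wt n δ s := by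
  unfold wt
  refine Finset.prod_nonneg (fun i _ => Finset.prod_nonneg (fun j _ => ?_))
  split_ifs <;> linarith

theorem sum_wt (δ : ℝ) : ∑ s : Fin n → Fin n → Bool, wt n δ s = 1 := by
  unfold wt
  have h := sum_prod_prod (n := n) (fun i j b =>
    (if i < j then (if b = true then (1/2 : ℝ) + δ else (1/2 : ℝ) - δ) else (1/2 : ℝ)))
  rw [h]
  refine Finset.prod_eq_one (fun i _ => Finset.prod_eq_one (fun j _ => ?_))
  simp only [if_true, Bool.false_eq_true, if_false]
  split_ifs <;> ring

/-- The centred linear statistic. -/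
noncomputable def lin (δ : ℝ) (c : Fin n → Fin n → ℝ) (s : Fin n → Fin n → Bool) : ℝ :=
  ∑ i, ∑ j, (if i < j then c i j * (sg (s i j) - 2 * δ) else 0)

theorem mgf_bound (δ : ℝ) (h0 : 0 ≤ δ) (h1 : δ ≤ 1/2) (c : Fin n → Fin n → ℝ) :
    ∑ s : Fin n → Fin n → Bool, wt n δ s * Real.exp (lin δ c s)
      ≤ Real.exp (1/2 * ∑ i, ∑ j, (if i < j then c i j ^ 2 else 0)) := by
  have e1 : ∀ s : Fin n → Fin n → Bool, wt n δ s * Real.exp (lin δ c s)
      = ∏ i, ∏ j, ((if i < j then (if s i j = true then (1/2 : ℝ) + δ else (1/2 : ℝ) - δ)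
          else (1/2 : ℝ)) * Real.exp (if i < j then c i j * (sg (s i j) - 2 * δ) else 0)) := by
    intro s
    unfold wt lin
    rw [Real.exp_sum, ← Finset.prod_mul_distrib]
    refine Finset.prod_congr rfl (fun i _ => ?_)
    rw [Real.exp_sum, ← Finset.prod_mul_distrib]
  rw [Finset.sum_congr rfl (fun s _ => e1 s)]
  have h := sum_prod_prod (n := n) (fun i j b =>
    ((if i < j then (if b = true then (1/2 : ℝ) + δ else (1/2 : ℝ) - δ)
          else (1/2 : ℝ)) * Real.exp (if i < j then c i j * (sg b - 2 * δ) else 0)))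
  rw [h]
  have e2 : Real.exp (1/2 * ∑ i, ∑ j, (if i < j then c i j ^ 2 else 0))
      = ∏ i, ∏ j, Real.exp (if i < j then c i j ^ 2 / 2 else 0) := by
    rw [Finset.mul_sum, Real.exp_sum]
    refine Finset.prod_congr rfl (fun i _ => ?_)
    rw [Finset.mul_sum, Real.exp_sum]
    refine Finset.prod_congr rfl (fun j _ => ?_)
    congr 1
    split_ifs <;> ring
  rw [e2]
  have pos : ∀ (i j : Fin n) (b : Bool), 0 ≤ ((if i < j then (if b = true then (1/2 : ℝ) + δ
      else (1/2 : ℝ) - δ) else (1/2 : ℝ))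
      * Real.exp (if i < j then c i j * (sg b - 2 * δ) else 0)) := by
    intro i j b
    apply mul_nonneg _ (Real.exp_pos _).le
    split_ifs <;> linarith
  refine Finset.prod_le_prod (fun i _ => Finset.prod_nonneg (fun j _ => ?_)) (fun i _ => ?_)
  · exact add_nonneg (pos i j true) (pos i j false)
  · refine Finset.prod_le_prod (fun j _ => ?_) (fun j _ => ?_)
    · exact add_nonneg (pos i j true) (pos i j false)
    · by_cases hij : i < j
      · simp only [hij, if_true, sg, Bool.false_eq_true, if_false]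
        exact two_point δ h0 h1 (c i j)
      · simp only [hij, if_false, Real.exp_zero]
        norm_num

theorem chernoff (δ : ℝ) (h0 : 0 ≤ δ) (h1 : δ ≤ 1/2) (c : Fin n → Fin n → ℝ) (τ : ℝ) :
    ∑ s : Fin n → Fin n → Bool, (if τ ≤ lin δ c s then wt n δ s else 0)
      ≤ Real.exp (1/2 * (∑ i, ∑ j, (if i < j then c i j ^ 2 else 0)) - τ) := by
  calc ∑ s : Fin n → Fin n → Bool, (if τ ≤ lin δ c s then wt n δ s else 0)
      ≤ ∑ s : Fin n → Fin n → Bool, Real.exp (-τ) * (wt n δ s * Real.exp (lin δ c s)) := by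
        refine Finset.sum_le_sum (fun s _ => ?_)
        have hw := wt_nonneg δ h0 h1 s
        split_ifs with h
        · have : 1 ≤ Real.exp (-τ) * Real.exp (lin δ c s) := by
            rw [← Real.exp_add]
            apply Real.one_le_exp
            linarith
          nlinarith
        · positivity
    _ = Real.exp (-τ) * ∑ s : Fin n → Fin n → Bool, (wt n δ s * Real.exp (lin δ c s)) := by
        rw [Finset.mul_sum]
    _ ≤ Real.exp (-τ) * Real.exp (1/2 * ∑ i, ∑ j, (if i < j then c i j ^ 2 else 0)) :=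
        mul_le_mul_of_nonneg_left (mgf_bound δ h0 h1 c) (Real.exp_pos _).le
    _ = _ := by rw [← Real.exp_add]; congr 1; ring

end Pool.T2h84GS
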