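import Pool.Agent.T2h84.GS.Det
import Pool.Agent.T2h84.GS.Prob

set_option autoImplicit false

open Finset MeasureTheory Metric Module Set
open scoped ENNReal

namespace Pool.T2h84GS

section net
variable {W : Type} [NormedAddCommGroup W] [NormedSpace ℝ W] [FiniteDimensional ℝ W]

theorem card_le_of_sep (s : Finset W) {δ : ℝ} (hδ : 0 < δ) (hs : ∀ c ∈ s, ‖c‖ ≤ 1)
    (h : ∀ c ∈ s, ∀ d ∈ s, c ≠ d → δ ≤ ‖c - d‖) :
    (s.card : ℝ) ≤ (1 + 2 / δ) ^ finrank ℝ W := by
  borelize W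
  let μ : Measure W := Measure.addHaar
  set ρ : ℝ := 1 + δ / 2 with hρ
  have δpos : 0 < δ / 2 := by positivity
  have ρpos : 0 < ρ := by positivity
  set A := ⋃ c ∈ s, ball (c : W) (δ / 2) with hA
  have D : Set.Pairwise (s : Set W) (Function.onFun Disjoint fun c => ball (c : W) (δ / 2)) := by
    rintro c hc d hd hcd
    apply ball_disjoint_ball
    rw [dist_eq_norm]
    have := h c hc d hd hcd
    linarith
  have A_subset : A ⊆ ball (0 : W) ρ := by
    refine iUnion₂_subset fun x hx => ?_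
    apply ball_subset_ball'
    rw [dist_zero_right, hρ]
    have := hs x hx
    linarith
  have I : (s.card : ℝ≥0∞) * ENNReal.ofReal ((δ / 2) ^ finrank ℝ W) * μ (ball 0 1) ≤
      ENNReal.ofReal (ρ ^ finrank ℝ W) * μ (ball 0 1) :=
    calc
      (s.card : ℝ≥0∞) * ENNReal.ofReal ((δ / 2) ^ finrank ℝ W) * μ (ball 0 1) = μ A := by
        rw [hA, measure_biUnion_finset D fun c _ => measurableSet_ball]
        simp only [μ.addHaar_ball_of_pos _ δpos]
        simp only [Finset.sum_const, nsmul_eq_mul, mul_assoc]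
      _ ≤ μ (ball (0 : W) ρ) := measure_mono A_subset
      _ = ENNReal.ofReal (ρ ^ finrank ℝ W) * μ (ball 0 1) := by
        simp only [μ.addHaar_ball_of_pos _ ρpos]
  have J : (s.card : ℝ≥0∞) * ENNReal.ofReal ((δ / 2) ^ finrank ℝ W)
      ≤ ENNReal.ofReal (ρ ^ finrank ℝ W) :=
    (ENNReal.mul_le_mul_iff_left (measure_ball_pos _ _ zero_lt_one).ne' measure_ball_lt_top.ne).1 I
  have K : (s.card : ℝ) * (δ / 2) ^ finrank ℝ W ≤ ρ ^ finrank ℝ W := by
    have h1 := ENNReal.toReal_le_of_le_ofReal (pow_nonneg ρpos.le _) J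
    rw [ENNReal.toReal_mul, ENNReal.toReal_ofReal (by positivity)] at h1
    simpa using h1
  have e : (1 + 2 / δ) = ρ / (δ / 2) := by
    rw [hρ]; field_simp; ring
  rw [e, div_pow, le_div_iff₀ (by positivity)]
  exact K

/-- nets of subsets of the unit ball -/
theorem exists_net (S : Set W) (hS : ∀ x ∈ S, ‖x‖ ≤ 1) {δ : ℝ} (hδ : 0 < δ) :
    ∃ T : Finset W, (∀ t ∈ T, t ∈ S) ∧ (T.card : ℝ) ≤ (1 + 2 / δ) ^ finrank ℝ W ∧
      ∀ x ∈ S, ∃ t ∈ T, ‖x - t‖ ≤ δ := by
  classical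
  set P : Finset W → Prop := fun T => (∀ t ∈ T, t ∈ S) ∧ ∀ c ∈ T, ∀ d ∈ T, c ≠ d → δ ≤ ‖c - d‖
    with hP
  have hb : ∀ T, P T → (T.card : ℝ) ≤ (1 + 2 / δ) ^ finrank ℝ W := fun T hT =>
    card_le_of_sep T hδ (fun c hc => hS c (hT.1 c hc)) hT.2
  set B : ℕ := ⌊(1 + 2 / δ) ^ finrank ℝ W⌋₊ with hB
  have hb' : ∀ T, P T → T.card ≤ B := fun T hT => Nat.le_floor (hb T hT)
  have hex : ∃ m, ∃ T, P T ∧ T.card = m := ⟨0, ∅, ⟨by simp, by simp⟩, rfl⟩
  obtain ⟨T, hT, hTc⟩ : ∃ T, P T ∧ T.card = Nat.findGreatest (fun m => ∃ T, P T ∧ T.card = m) B := by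
    obtain ⟨m, T0, hT0, hm⟩ := hex
    exact Nat.findGreatest_spec (P := fun m => ∃ T, P T ∧ T.card = m) (hb' T0 hT0)
      ⟨T0, hT0, rfl⟩
  refine ⟨T, hT.1, hb T hT, fun x hx => ?_⟩
  by_contra hc
  push Not at hc
  have hxT : x ∉ T := by
    intro hxT
    have := hc x hxT
    rw [sub_self, norm_zero] at this
    linarith
  have hP' : P (insert x T) := by
    refine ⟨fun t ht => ?_, fun c hc' d hd hcd => ?_⟩
    · rcases Finset.mem_insert.1 ht with rfl | ht
      · exact hx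
      · exact hT.1 t ht
    · rcases Finset.mem_insert.1 hc' with hcx | hc2
      · rcases Finset.mem_insert.1 hd with hdx | hd2
        · exact absurd (hcx.trans hdx.symm) hcd
        · rw [hcx]
          exact (hc d hd2).le
      · rcases Finset.mem_insert.1 hd with hdx | hd2
        · rw [hdx, norm_sub_rev]
          exact (hc c hc2).le
        · exact hT.2 c hc2 d hd2 hcd
  have h1 : (insert x T).card ≤ Nat.findGreatest (fun m => ∃ T, P T ∧ T.card = m) B :=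
    Nat.le_findGreatest (hb' _ hP') ⟨_, hP', rfl⟩
  rw [Finset.card_insert_of_notMem hxT, ← hTc] at h1
  omega

end net

variable {n : ℕ}

/-- Improvement of a form bound using a net. -/
theorem form_step (M : Fin n → Fin n → ℝ) (hM : ∀ i j, M i j = M j i)
    (T : Finset (EuclideanSpace ℝ (Fin n))) (hT1 : ∀ t ∈ T, ‖t‖ = 1)
    (hT : ∀ x : EuclideanSpace ℝ (Fin n), ‖x‖ = 1 → ∃ t ∈ T, ‖x - t‖ ≤ 1/4)
    (B K : ℝ) (hB : ∀ t ∈ T, |∑ i, ∑ j, M i j * (t i * t j)| ≤ B) (hK : 0 < K)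
    (h : ∀ x : Fin n → ℝ, |∑ i, ∑ j, M i j * (x i * x j)| ≤ K * ∑ i, x i ^ 2)
    (x : Fin n → ℝ) : |∑ i, ∑ j, M i j * (x i * x j)| ≤ (B + K / 2) * ∑ i, x i ^ 2 := by
  have hx0 : 0 ≤ ∑ i, x i ^ 2 := Finset.sum_nonneg (fun i _ => sq_nonneg _)
  rcases hx0.eq_or_lt with h0 | hpos
  · have h1 := h x
    rw [← h0] at h1 ⊢
    simpa using h1
  set r : ℝ := Real.sqrt (∑ i, x i ^ 2) with hr
  have hrpos : 0 < r := Real.sqrt_pos.mpr hpos
  have hr2 : r ^ 2 = ∑ i, x i ^ 2 := Real.sq_sqrt hx0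
  set y : EuclideanSpace ℝ (Fin n) := WithLp.toLp 2 (fun i => x i / r) with hy
  have hyi : ∀ i, y i = x i / r := fun i => rfl
  have hny : ‖y‖ = 1 := by
    rw [EuclideanSpace.norm_eq, Real.sqrt_eq_one]
    have : ∀ i, ‖y i‖ ^ 2 = x i ^ 2 / r ^ 2 := fun i => by
      rw [hyi, Real.norm_eq_abs, sq_abs, div_pow]
    rw [Finset.sum_congr rfl (fun i _ => this i), ← Finset.sum_div, ← hr2]
    exact div_self (by positivity)
  obtain ⟨t, htT, hyt⟩ := hT y hny
  have ht1 := hT1 t htT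
  have hsq : ∀ z : EuclideanSpace ℝ (Fin n), ‖z‖ ^ 2 = ∑ i, z i ^ 2 := by
    intro z
    rw [EuclideanSpace.norm_sq_eq]
    refine Finset.sum_congr rfl (fun i _ => by rw [Real.norm_eq_abs, sq_abs])
  -- difference of the forms
  have hdiff : (∑ i, ∑ j, M i j * (y i * y j)) - (∑ i, ∑ j, M i j * (t i * t j))
      = ∑ i, (y i - t i) * ∑ j, M i j * (y j + t j) := by
    have s1 : ∑ i, ∑ j, M i j * (y i * t j) = ∑ i, ∑ j, M i j * (t i * y j) := by
      rw [Finset.sum_comm]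
      refine Finset.sum_congr rfl (fun i _ => Finset.sum_congr rfl (fun j _ => ?_))
      rw [hM j i]; ring
    have s2 : ∑ i, (y i - t i) * ∑ j, M i j * (y j + t j)
        = (∑ i, ∑ j, M i j * (y i * y j)) - (∑ i, ∑ j, M i j * (t i * t j))
          + ((∑ i, ∑ j, M i j * (y i * t j)) - ∑ i, ∑ j, M i j * (t i * y j)) := by
      rw [← Finset.sum_sub_distrib, ← Finset.sum_sub_distrib, ← Finset.sum_add_distrib]
      refine Finset.sum_congr rfl (fun i _ => ?_)
      rw [Finset.mul_sum, ← Finset.sum_sub_distrib, ← Finset.sum_sub_distrib,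
        ← Finset.sum_add_distrib]
      refine Finset.sum_congr rfl (fun j _ => by ring)
    rw [s2, s1]; ring
  have hop := opnorm_of_form M hM K hK h (fun j => y j + t j)
  have hcs := Finset.sum_mul_sq_le_sq_mul_sq Finset.univ (fun i => y i - t i)
    (fun i => ∑ j, M i j * (y j + t j))
  have hp : ∑ i, (y i - t i) ^ 2 ≤ 1 / 16 := by
    have e : ∑ i, (y i - t i) ^ 2 = ‖y - t‖ ^ 2 := by
      rw [hsq]; rfl
    rw [e]
    have := pow_le_pow_left₀ (norm_nonneg _) hyt 2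
    norm_num at this ⊢
    exact this
  have hq : ∑ i, (y i + t i) ^ 2 ≤ 4 := by
    have e : ∑ i, (y i + t i) ^ 2 = ‖y + t‖ ^ 2 := by
      rw [hsq]; rfl
    rw [e]
    have h2 : ‖y + t‖ ≤ 2 := by
      calc ‖y + t‖ ≤ ‖y‖ + ‖t‖ := norm_add_le _ _
        _ = 2 := by rw [hny, ht1]; norm_num
    have := pow_le_pow_left₀ (norm_nonneg _) h2 2
    norm_num at this ⊢
    exact this
  have hd2 : ((∑ i, ∑ j, M i j * (y i * y j)) - (∑ i, ∑ j, M i j * (t i * t j))) ^ 2
      ≤ (K / 2) ^ 2 := by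
    rw [hdiff]
    calc (∑ i, (y i - t i) * ∑ j, M i j * (y j + t j)) ^ 2
        ≤ (∑ i, (y i - t i) ^ 2) * ∑ i, (∑ j, M i j * (y j + t j)) ^ 2 := hcs
      _ ≤ (1 / 16) * (K ^ 2 * 4) := by
          apply mul_le_mul hp _ (Finset.sum_nonneg (fun i _ => sq_nonneg _)) (by norm_num)
          exact hop.trans (mul_le_mul_of_nonneg_left hq (sq_nonneg K))
      _ = (K / 2) ^ 2 := by ring
  have hd3 := abs_le_of_sq_le_sq hd2 (by positivity)
  have hQt := hB t htT
  have hQy : |∑ i, ∑ j, M i j * (y i * y j)| ≤ B + K / 2 := by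
    have e : (∑ i, ∑ j, M i j * (y i * y j)) = (∑ i, ∑ j, M i j * (t i * t j))
      + ((∑ i, ∑ j, M i j * (y i * y j)) - (∑ i, ∑ j, M i j * (t i * t j))) := by ring
    rw [e]
    exact (abs_add_le _ _).trans (add_le_add hQt hd3)
  have hQx : ∑ i, ∑ j, M i j * (x i * x j) = r ^ 2 * ∑ i, ∑ j, M i j * (y i * y j) := by
    rw [Finset.mul_sum]
    refine Finset.sum_congr rfl (fun i _ => ?_)
    rw [Finset.mul_sum]
    refine Finset.sum_congr rfl (fun j _ => ?_)
    rw [hyi, hyi]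
    field_simp
  rw [hQx, abs_mul, abs_of_nonneg (sq_nonneg r), ← hr2, mul_comm]
  exact mul_le_mul_of_nonneg_right hQy (sq_nonneg r)

/-- The net bound for a quadratic form. -/
theorem form_le_of_net (M : Fin n → Fin n → ℝ) (hM : ∀ i j, M i j = M j i)
    (T : Finset (EuclideanSpace ℝ (Fin n))) (hT1 : ∀ t ∈ T, ‖t‖ = 1)
    (hT : ∀ x : EuclideanSpace ℝ (Fin n), ‖x‖ = 1 → ∃ t ∈ T, ‖x - t‖ ≤ 1/4)
    (B : ℝ) (hB0 : 0 ≤ B) (hB : ∀ t ∈ T, |∑ i, ∑ j, M i j * (t i * t j)| ≤ B)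
    (x : Fin n → ℝ) : |∑ i, ∑ j, M i j * (x i * x j)| ≤ (2 * B) * ∑ i, x i ^ 2 := by
  set K₀ : ℝ := (∑ i, ∑ j, |M i j|) + 1 with hK₀
  have hK₀pos : 0 < K₀ := by
    have : 0 ≤ ∑ i, ∑ j, |M i j| :=
      Finset.sum_nonneg (fun i _ => Finset.sum_nonneg (fun j _ => abs_nonneg _))
    linarith
  have base : ∀ x : Fin n → ℝ, |∑ i, ∑ j, M i j * (x i * x j)| ≤ K₀ * ∑ i, x i ^ 2 := by
    intro x
    have hx0 : 0 ≤ ∑ i, x i ^ 2 := Finset.sum_nonneg (fun i _ => sq_nonneg _)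
    calc |∑ i, ∑ j, M i j * (x i * x j)| ≤ ∑ i, ∑ j, |M i j| * ∑ k, x k ^ 2 := by
          refine (Finset.abs_sum_le_sum_abs _ _).trans (Finset.sum_le_sum (fun i _ => ?_))
          refine (Finset.abs_sum_le_sum_abs _ _).trans (Finset.sum_le_sum (fun j _ => ?_))
          rw [abs_mul]
          apply mul_le_mul_of_nonneg_left _ (abs_nonneg _)
          have hi : x i ^ 2 ≤ ∑ k, x k ^ 2 :=
            Finset.single_le_sum (f := fun k => x k ^ 2) (fun k _ => sq_nonneg _)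
              (Finset.mem_univ i)
          have hj : x j ^ 2 ≤ ∑ k, x k ^ 2 :=
            Finset.single_le_sum (f := fun k => x k ^ 2) (fun k _ => sq_nonneg _)
              (Finset.mem_univ j)
          rw [abs_le]
          constructor <;> nlinarith [sq_nonneg (x i - x j), sq_nonneg (x i + x j)]
      _ = (∑ i, ∑ j, |M i j|) * ∑ k, x k ^ 2 := by
          rw [Finset.sum_mul]
          refine Finset.sum_congr rfl (fun i _ => ?_)
          rw [Finset.sum_mul]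
      _ ≤ K₀ * ∑ k, x k ^ 2 := by
          apply mul_le_mul_of_nonneg_right _ hx0
          rw [hK₀]; linarith
  have iter : ∀ m : ℕ, ∀ x : Fin n → ℝ, |∑ i, ∑ j, M i j * (x i * x j)|
      ≤ (2 * B + K₀ / 2 ^ m) * ∑ i, x i ^ 2 := by
    intro m
    induction m with
    | zero =>
      intro x
      have hx0 : 0 ≤ ∑ i, x i ^ 2 := Finset.sum_nonneg (fun i _ => sq_nonneg _)
      refine (base x).trans ?_
      apply mul_le_mul_of_nonneg_right _ hx0
      simp; linarith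
    | succ m ih =>
      intro x
      have h1 := form_step M hM T hT1 hT B (2 * B + K₀ / 2 ^ m) hB (by positivity) ih x
      refine h1.trans (le_of_eq ?_)
      congr 1
      rw [pow_succ]
      field_simp
      ring
  have hlim : Filter.Tendsto (fun m : ℕ => (2 * B + K₀ / 2 ^ m) * ∑ i, x i ^ 2) Filter.atTop
      (nhds ((2 * B + 0) * ∑ i, x i ^ 2)) := by
    apply Filter.Tendsto.mul_const
    apply Filter.Tendsto.const_add
    have h2 : Filter.Tendsto (fun m : ℕ => K₀ * (1 / 2 : ℝ) ^ m) Filter.atTop (nhds (K₀ * 0)) := by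
      apply Filter.Tendsto.const_mul
      exact tendsto_pow_atTop_nhds_zero_of_lt_one (by norm_num) (by norm_num)
    rw [mul_zero] at h2
    refine h2.congr (fun m => ?_)
    rw [one_div, inv_pow]; rfl
  rw [add_zero] at hlim
  exact ge_of_tendsto' hlim (fun m => iter m x)

end Pool.T2h84GS
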